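import Pool.Agent.Q193.SA.Norm

set_option autoImplicit false
set_option linter.unusedSectionVars false
open scoped InnerProductSpace ENNReal NNReal Topology
open Pool.Agent.Helper526.Sch Filter

/-!
The Schatten class `𝔖_p(H)`, `1 ≤ p < ∞`, as a Banach algebra.
-/

namespace Pool.Agent.Q193.SA

universe u v w w'

variable {ι : Type v} {H : Type u} [NormedAddCommGroup H]
  [InnerProductSpace ℂ H] [CompleteSpace H]

/-- The Schatten class `𝔖_p(H)`, `1 ≤ p < ∞`: the compact operators `c` on `H` with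
`tr |c|^p = ∑ᵢ ⟪bᵢ, (c* c)^{p/2} bᵢ⟫ < ∞`, where `b` is a Hilbert basis of `H`
(the trace does not depend on it). It is a Banach algebra, with the norm
`‖c‖_p = (tr |c|^p)^{1/p}` and the composition of operators as product (instances below). -/
structure SchattenAlg (b : HilbertBasis ι ℂ H) (p : ℝ) where
  /-- the underlying operator -/
  op : H →L[ℂ] H
  compact : IsCompactOperator op
  fin : trAbsPow b p op < ∞

namespace SchattenAlg

variable {b : HilbertBasis ι ℂ H} {p : ℝ}

lemma op_injective : Function.Injective (op : SchattenAlg b p → (H →L[ℂ] H)) := by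
  rintro ⟨x, _, _⟩ ⟨y, _, _⟩ h
  cases h
  rfl

variable [hp : Fact (1 ≤ p)]

lemma p_pos : 0 < p := lt_of_lt_of_le one_pos hp.out

instance : Zero (SchattenAlg b p) :=
  ⟨⟨0, isCompactOperator_zero, by rw [trAbsPow_zero b (p_pos (p := p))]; simp⟩⟩

instance : Add (SchattenAlg b p) :=
  ⟨fun x y => ⟨x.op + y.op, x.compact.add y.compact,
    trAbsPow_add_lt_top b x.compact y.compact (p_pos (p := p)) x.fin y.fin⟩⟩

instance : SMul ℂ (SchattenAlg b p) :=
  ⟨fun c x => ⟨c • x.op, x.compact.smul c,
    (schatten_smul_mem b (p_pos (p := p)) c ⟨x.compact, x.fin⟩).2⟩⟩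

instance : Neg (SchattenAlg b p) :=
  ⟨fun x => ⟨-x.op, x.compact.neg, by
    have := (schatten_smul_mem b (p_pos (p := p)) (-1 : ℂ) ⟨x.compact, x.fin⟩).2
    simpa using this⟩⟩

instance : Sub (SchattenAlg b p) :=
  ⟨fun x y => ⟨x.op - y.op, x.compact.sub y.compact, by
    have := (x + (-y)).fin
    rw [sub_eq_add_neg]
    exact this⟩⟩

instance : SMul ℕ (SchattenAlg b p) :=
  ⟨fun n x => ⟨n • x.op, by
    rw [← Nat.cast_smul_eq_nsmul ℂ n x.op]
    exact x.compact.smul (n : ℂ), by
    rw [← Nat.cast_smul_eq_nsmul ℂ n x.op]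
    exact (schatten_smul_mem b (p_pos (p := p)) (n : ℂ) ⟨x.compact, x.fin⟩).2⟩⟩

instance : SMul ℤ (SchattenAlg b p) :=
  ⟨fun n x => ⟨n • x.op, by
    rw [← Int.cast_smul_eq_zsmul ℂ n x.op]
    exact x.compact.smul (n : ℂ), by
    rw [← Int.cast_smul_eq_zsmul ℂ n x.op]
    exact (schatten_smul_mem b (p_pos (p := p)) (n : ℂ) ⟨x.compact, x.fin⟩).2⟩⟩

/-- the product of `𝔖_p(H)`: composition of operators -/
instance : Mul (SchattenAlg b p) :=
  ⟨fun x y => ⟨x.op * y.op, y.compact.clm_comp x.op,
    trAbsPow_mul_lt_top b x.op y.compact (p_pos (p := p)) y.fin⟩⟩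

@[simp] lemma op_zero : (0 : SchattenAlg b p).op = 0 := rfl
@[simp] lemma op_add (x y : SchattenAlg b p) : (x + y).op = x.op + y.op := rfl
@[simp] lemma op_neg (x : SchattenAlg b p) : (-x).op = -x.op := rfl
@[simp] lemma op_sub (x y : SchattenAlg b p) : (x - y).op = x.op - y.op := rfl
@[simp] lemma op_smul (c : ℂ) (x : SchattenAlg b p) : (c • x).op = c • x.op := rfl
@[simp] lemma op_mul (x y : SchattenAlg b p) : (x * y).op = x.op * y.op := rfl

instance : AddCommGroup (SchattenAlg b p) :=
  op_injective.addCommGroup op rfl (fun _ _ => rfl) (fun _ => rfl) (fun _ _ => rfl)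
    (fun _ _ => rfl) (fun _ _ => rfl)

/-- the operator as a linear map -/
def opHom : SchattenAlg b p →+ (H →L[ℂ] H) where
  toFun := op
  map_zero' := rfl
  map_add' _ _ := rfl

instance : Module ℂ (SchattenAlg b p) :=
  op_injective.module ℂ opHom (fun _ _ => rfl)

/-- the norm `‖c‖_p = (tr |c|^p)^{1/p}` of `𝔖_p(H)` -/
noncomputable instance : Norm (SchattenAlg b p) := ⟨fun x => schattenNorm b p x.op⟩

lemma norm_def (x : SchattenAlg b p) : ‖x‖ = schattenNorm b p x.op := rfl

lemma opNorm_le (x : SchattenAlg b p) : ‖x.op‖ ≤ ‖x‖ :=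
  opNorm_le_sn b (Cpt.of_compact x.compact).1 hp.out x.fin

noncomputable instance : NormedAddCommGroup (SchattenAlg b p) :=
  NormedAddCommGroup.ofCore (𝕜 := ℂ)
    { norm_nonneg := fun x => sn_nonneg b p x.op
      norm_smul := fun c x => sn_smul b x.compact (p_pos (p := p)) c
      norm_triangle := fun x y => sn_add_le b x.compact y.compact hp.out x.fin y.fin
      norm_eq_zero_iff := fun x => by
        refine ⟨fun h => ?_, fun h => ?_⟩
        · have h1 := opNorm_le x
          rw [h] at h1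
          exact op_injective (norm_le_zero_iff.1 h1)
        · rw [h]
          exact sn_zero b (p_pos (p := p)) }

noncomputable instance : NormedSpace ℂ (SchattenAlg b p) where
  norm_smul_le := fun c x => (sn_smul b x.compact (p_pos (p := p)) c).le

noncomputable instance : NonUnitalNormedRing (SchattenAlg b p) where
  __ := (inferInstance : NormedAddCommGroup (SchattenAlg b p))
  left_distrib := fun x y z => op_injective (mul_add x.op y.op z.op)
  right_distrib := fun x y z => op_injective (add_mul x.op y.op z.op)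
  zero_mul := fun x => op_injective (zero_mul x.op)
  mul_zero := fun x => op_injective (mul_zero x.op)
  mul_assoc := fun x y z => op_injective (mul_assoc x.op y.op z.op)
  norm_mul_le := fun x y => by
    refine (sn_mul_le b x.op y.compact (p_pos (p := p)) y.fin).trans ?_
    exact mul_le_mul_of_nonneg_right (opNorm_le x) (sn_nonneg b p y.op)

instance : IsScalarTower ℂ (SchattenAlg b p) (SchattenAlg b p) :=
  ⟨fun c x y => op_injective (smul_mul_assoc c x.op y.op)⟩

instance : SMulCommClass ℂ (SchattenAlg b p) (SchattenAlg b p) :=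
  ⟨fun c x y => op_injective (mul_smul_comm c x.op y.op).symm⟩

instance : CompleteSpace (SchattenAlg b p) := by
  refine Metric.complete_of_cauchySeq_tendsto fun u hu => ?_
  have hp0 : 0 < p := p_pos (p := p)
  have hc : CauchySeq (fun n => (u n).op) := by
    rw [Metric.cauchySeq_iff]
    intro ε hε
    obtain ⟨N, hN⟩ := Metric.cauchySeq_iff.1 hu ε hε
    refine ⟨N, fun m hm n hn => ?_⟩
    have h1 := hN m hm n hn
    rw [dist_eq_norm] at h1 ⊢
    exact (opNorm_le (u m - u n)).trans_lt h1
  obtain ⟨T, hT⟩ := cauchySeq_tendsto_of_complete hc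
  have hTc : IsCompactOperator T :=
    isCompactOperator_of_tendsto hT (Eventually.of_forall fun n => (u n).compact)
  -- bounds of `T - u n`
  have hbd : ∀ n : ℕ, ∀ ε : ℝ, 0 ≤ ε → (∀ m ≥ n, ‖u m - u n‖ ≤ ε) →
      trAbsPow b p (T - (u n).op) ≤ ENNReal.ofReal (ε ^ p) := by
    intro n ε hε hm
    refine trAbsPow_le_of_forall b (Cpt.of_compact (hTc.sub (u n).compact)).1 hp0 ?_
    intro α _ e f he hf
    have hlim : Tendsto (fun m => ∑ i, ‖⟪f i, ((u m).op - (u n).op) (e i)⟫_ℂ‖ ^ p) atTop
        (𝓝 (∑ i, ‖⟪f i, (T - (u n).op) (e i)⟫_ℂ‖ ^ p)) := by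
      refine tendsto_finsetSum _ fun i _ => ?_
      refine Tendsto.rpow_const ?_ (Or.inr hp0.le)
      refine Tendsto.norm ?_
      refine Filter.Tendsto.inner tendsto_const_nhds ?_
      exact (ContinuousLinearMap.apply ℂ H (e i)).continuous.tendsto _ |>.comp
        (hT.sub tendsto_const_nhds)
    refine le_of_tendsto hlim ?_
    filter_upwards [eventually_ge_atTop n] with m hmn
    refine (sum_le_sn b (Cpt.of_compact (u m - u n).compact).1 hp.out (u m - u n).fin he hf).trans ?_
    exact Real.rpow_le_rpow (sn_nonneg _ _ _) (hm m hmn) hp0.le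
  have hfin : trAbsPow b p T < ∞ := by
    obtain ⟨n, hn⟩ := Metric.cauchySeq_iff'.1 hu 1 one_pos
    have h1 := hbd n 1 zero_le_one fun m hm => by
      have := (hn m hm).le
      rwa [dist_eq_norm] at this
    have h2 : trAbsPow b p (T - (u n).op) < ∞ := h1.trans_lt ENNReal.ofReal_lt_top
    have h3 := trAbsPow_add_lt_top b (hTc.sub (u n).compact) (u n).compact hp0 h2 (u n).fin
    rwa [sub_add_cancel] at h3
  refine ⟨⟨T, hTc, hfin⟩, ?_⟩
  rw [Metric.tendsto_atTop]
  intro ε hε
  obtain ⟨n, hn⟩ := Metric.cauchySeq_iff.1 hu (ε / 2) (by positivity)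
  refine ⟨n, fun m hm => ?_⟩
  rw [dist_comm, dist_eq_norm]
  have h1 := hbd m (ε / 2) (by positivity) fun k hk => by
    have := (hn k (hm.le.trans hk) m hm).le
    rwa [dist_eq_norm] at this
  have h2 := sn_le_of b hp0 (by positivity : (0:ℝ) ≤ ε / 2) h1
  have h3 : ‖(⟨T, hTc, hfin⟩ : SchattenAlg b p) - u m‖ ≤ ε / 2 := h2
  linarith

end SchattenAlg

end Pool.Agent.Q193.SA
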