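import Pool.Agent.Q193.SA.Defs

set_option autoImplicit false
set_option linter.unusedSectionVars false
set_option synthInstance.maxHeartbeats 400000

open Filter Topology

namespace Pool.Agent.Q193.SA

universe u

/-- bounded bilinear forms -/
abbrev Bil (A : Type u) [NonUnitalNormedRing A] [NormedSpace ℂ A] := A →L[ℂ] A →L[ℂ] ℂ

/-- the space of triples `(F, G, k)`, `F, G` bounded bilinear forms, `k` a bounded functional -/
def Amb (A : Type u) [NonUnitalNormedRing A] [NormedSpace ℂ A] : Type u :=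
  Bil A × Bil A × (A →L[ℂ] ℂ)

section Amb

variable {A : Type u} [NonUnitalNormedRing A] [NormedSpace ℂ A]

noncomputable instance : NormedAddCommGroup (Amb A) :=
  inferInstanceAs (NormedAddCommGroup (Bil A × Bil A × (A →L[ℂ] ℂ)))

noncomputable instance : NormedSpace ℂ (Amb A) :=
  inferInstanceAs (NormedSpace ℂ (Bil A × Bil A × (A →L[ℂ] ℂ)))

instance : CompleteSpace (Amb A) :=
  inferInstanceAs (CompleteSpace (Bil A × Bil A × (A →L[ℂ] ℂ)))

/-- first coordinate -/
noncomputable def pF : Amb A →L[ℂ] Bil A := ContinuousLinearMap.fst ℂ (Bil A) (Bil A × (A →L[ℂ] ℂ))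

/-- second coordinate -/
noncomputable def pG : Amb A →L[ℂ] Bil A :=
  (ContinuousLinearMap.fst ℂ (Bil A) (A →L[ℂ] ℂ)).comp
    (ContinuousLinearMap.snd ℂ (Bil A) (Bil A × (A →L[ℂ] ℂ)))

/-- third coordinate -/
noncomputable def pK : Amb A →L[ℂ] (A →L[ℂ] ℂ) :=
  (ContinuousLinearMap.snd ℂ (Bil A) (A →L[ℂ] ℂ)).comp
    (ContinuousLinearMap.snd ℂ (Bil A) (Bil A × (A →L[ℂ] ℂ)))

/-- constructor -/
def mkA (F G : Bil A) (k : A →L[ℂ] ℂ) : Amb A := (F, G, k)

@[simp] lemma pF_mkA (F G : Bil A) (k : A →L[ℂ] ℂ) : pF (mkA F G k) = F := rfl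
@[simp] lemma pG_mkA (F G : Bil A) (k : A →L[ℂ] ℂ) : pG (mkA F G k) = G := rfl
@[simp] lemma pK_mkA (F G : Bil A) (k : A →L[ℂ] ℂ) : pK (mkA F G k) = k := rfl

lemma amb_ext {x y : Amb A} (h1 : pF x = pF y) (h2 : pG x = pG y) (h3 : pK x = pK y) : x = y :=
  Prod.ext h1 (Prod.ext h2 h3)

lemma norm_mkA_le {F G : Bil A} {k : A →L[ℂ] ℂ} {C : ℝ} (h1 : ‖F‖ ≤ C) (h2 : ‖G‖ ≤ C)
    (h3 : ‖k‖ ≤ C) : ‖mkA F G k‖ ≤ C := by
  change ‖((F, G, k) : Bil A × Bil A × (A →L[ℂ] ℂ))‖ ≤ C
  rw [Prod.norm_def, Prod.norm_def]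
  exact max_le h1 (max_le h2 h3)

lemma norm_pF_le (x : Amb A) : ‖pF x‖ ≤ ‖x‖ :=
  norm_fst_le (E := Bil A) (F := Bil A × (A →L[ℂ] ℂ)) x

lemma norm_pG_le (x : Amb A) : ‖pG x‖ ≤ ‖x‖ :=
  (norm_fst_le (E := Bil A) (F := A →L[ℂ] ℂ) _).trans
    (norm_snd_le (E := Bil A) (F := Bil A × (A →L[ℂ] ℂ)) x)

end Amb

variable {A : Type u} [NonUnitalNormedRing A] [NormedSpace ℂ A]

/-- The space of triples `(F, G, k)` with `F, G` balanced forms and `k (ab) = F(a,b) - G(a,b)`. -/
def trip (A : Type u) [NonUnitalNormedRing A] [NormedSpace ℂ A] : Submodule ℂ (Amb A) where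
  carrier := {x | (∀ a b c, pF x (a * b) c = pF x a (b * c)) ∧
    (∀ a b c, pG x (a * b) c = pG x a (b * c)) ∧ ∀ a b, pK x (a * b) = pF x a b - pG x a b}
  add_mem' := by
    rintro x y ⟨h1, h2, h3⟩ ⟨k1, k2, k3⟩
    refine ⟨fun a b c => ?_, fun a b c => ?_, fun a b => ?_⟩
    · simp [h1, k1]
    · simp [h2, k2]
    · simp [h3, k3]; ring
  zero_mem' := by simp
  smul_mem' := by
    rintro c x ⟨h1, h2, h3⟩
    refine ⟨fun a b c => ?_, fun a b c => ?_, fun a b => ?_⟩
    · simp [h1]
    · simp [h2]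
    · simp [h3]; ring

lemma isClosed_trip : IsClosed (trip A : Set (Amb A)) := by
  have : (trip A : Set (Amb A)) =
      (⋂ (a : A) (b : A) (c : A), {x | pF x (a * b) c = pF x a (b * c)}) ∩
      ((⋂ (a : A) (b : A) (c : A), {x | pG x (a * b) c = pG x a (b * c)}) ∩
      (⋂ (a : A) (b : A), {x | pK x (a * b) = pF x a b - pG x a b})) := by
    ext x
    simp only [Set.mem_inter_iff, Set.mem_iInter, Set.mem_ofPred_eq]
    rfl
  rw [this]
  refine IsClosed.inter ?_ (IsClosed.inter ?_ ?_)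
  · refine isClosed_iInter fun a => isClosed_iInter fun b => isClosed_iInter fun c => ?_
    exact isClosed_eq (by fun_prop) (by fun_prop)
  · refine isClosed_iInter fun a => isClosed_iInter fun b => isClosed_iInter fun c => ?_
    exact isClosed_eq (by fun_prop) (by fun_prop)
  · refine isClosed_iInter fun a => isClosed_iInter fun b => ?_
    exact isClosed_eq (by fun_prop) (by fun_prop)

instance : CompleteSpace (trip A) := isClosed_trip.completeSpace_coe

variable [IsScalarTower ℂ A A] [SMulCommClass ℂ A A]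

/-- `(b, c) ↦ G b (c a)` -/
noncomputable def lG (a : A) (G : Bil A) : Bil A :=
  ((ContinuousLinearMap.compL ℂ A A ℂ).flip ((ContinuousLinearMap.mul ℂ A).flip a)).comp G

@[simp] lemma lG_apply (a : A) (G : Bil A) (b c : A) : lG a G b c = G b (c * a) := rfl

/-- `(b, c) ↦ F (a b) c` -/
noncomputable def rF (a : A) (F : Bil A) : Bil A := F.comp (ContinuousLinearMap.mul ℂ A a)

@[simp] lemma rF_apply (a : A) (F : Bil A) (b c : A) : rF a F b c = F (a * b) c := rfl

lemma norm_lG (a : A) (G : Bil A) : ‖lG a G‖ ≤ ‖a‖ * ‖G‖ := by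
  refine ContinuousLinearMap.opNorm_le_bound₂ _ (by positivity) fun b c => ?_
  rw [lG_apply]
  calc ‖G b (c * a)‖ ≤ ‖G‖ * ‖b‖ * ‖c * a‖ := G.le_opNorm₂ b (c * a)
    _ ≤ ‖G‖ * ‖b‖ * (‖c‖ * ‖a‖) := by gcongr; exact norm_mul_le c a
    _ = _ := by ring

lemma norm_rF (a : A) (F : Bil A) : ‖rF a F‖ ≤ ‖a‖ * ‖F‖ := by
  refine ContinuousLinearMap.opNorm_le_bound₂ _ (by positivity) fun b c => ?_
  rw [rF_apply]
  calc ‖F (a * b) c‖ ≤ ‖F‖ * ‖a * b‖ * ‖c‖ := F.le_opNorm₂ _ _
    _ ≤ ‖F‖ * (‖a‖ * ‖b‖) * ‖c‖ := by gcongr; exact norm_mul_le a b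
    _ = _ := by ring

lemma norm_zero_bil : ‖(0 : Bil A)‖ = 0 := ContinuousLinearMap.opNorm_zero

/-- the left action on `trip A` -/
noncomputable def lAct (a : A) (x : trip A) : trip A :=
  ⟨mkA 0 (lG a (pG x.1)) (-((pG x.1).flip a)), by
    obtain ⟨x, h1, h2, h3⟩ := x
    refine ⟨fun b c d => by simp, fun b c d => ?_, fun b c => ?_⟩
    · simp only [pG_mkA, lG_apply]
      rw [h2, mul_assoc]
    · simp only [pG_mkA, pK_mkA, pF_mkA, lG_apply, FunLike.coe_neg, Pi.neg_apply,
        ContinuousLinearMap.flip_apply]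
      rw [h2]
      simp⟩

/-- the right action on `trip A` -/
noncomputable def rAct (a : A) (x : trip A) : trip A :=
  ⟨mkA (rF a (pF x.1)) 0 (pF x.1 a), by
    obtain ⟨x, h1, h2, h3⟩ := x
    refine ⟨fun b c d => ?_, fun b c d => by simp, fun b c => ?_⟩
    · simp only [pF_mkA, rF_apply]
      rw [← mul_assoc, h1]
    · simp only [pF_mkA, pG_mkA, pK_mkA, rF_apply]
      rw [h1]
      simp⟩

@[simp] lemma pF_lAct (a : A) (x : trip A) : pF (lAct a x).1 = 0 := rfl
@[simp] lemma pG_lAct (a : A) (x : trip A) : pG (lAct a x).1 = lG a (pG x.1) := rfl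
@[simp] lemma pK_lAct (a : A) (x : trip A) : pK (lAct a x).1 = -((pG x.1).flip a) := rfl
@[simp] lemma pF_rAct (a : A) (x : trip A) : pF (rAct a x).1 = rF a (pF x.1) := rfl
@[simp] lemma pG_rAct (a : A) (x : trip A) : pG (rAct a x).1 = 0 := rfl
@[simp] lemma pK_rAct (a : A) (x : trip A) : pK (rAct a x).1 = pF x.1 a := rfl

lemma norm_lAct (a : A) (x : trip A) : ‖lAct a x‖ ≤ 1 * ‖a‖ * ‖x‖ := by
  have hx : ‖pG x.1‖ ≤ ‖x‖ := norm_pG_le x.1
  rw [one_mul]
  refine norm_mkA_le (norm_zero_bil.le.trans (by positivity)) ?_ ?_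
  · exact (norm_lG a _).trans (by gcongr)
  · rw [norm_neg]
    calc ‖(pG x.1).flip a‖ ≤ ‖(pG x.1).flip‖ * ‖a‖ := ((pG x.1).flip).le_opNorm a
      _ = ‖pG x.1‖ * ‖a‖ := by rw [ContinuousLinearMap.opNorm_flip]
      _ ≤ ‖x‖ * ‖a‖ := by gcongr
      _ = _ := mul_comm _ _

lemma norm_rAct (a : A) (x : trip A) : ‖rAct a x‖ ≤ 1 * ‖a‖ * ‖x‖ := by
  have hx : ‖pF x.1‖ ≤ ‖x‖ := norm_pF_le x.1
  rw [one_mul]
  refine norm_mkA_le ?_ (norm_zero_bil.le.trans (by positivity)) ?_
  · exact (norm_rF a _).trans (by gcongr)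
  · calc ‖pF x.1 a‖ ≤ ‖pF x.1‖ * ‖a‖ := (pF x.1).le_opNorm a
      _ ≤ ‖x‖ * ‖a‖ := by gcongr
      _ = _ := mul_comm _ _

/-- the bimodule `trip A` -/
noncomputable def tripMod (A : Type u) [NonUnitalNormedRing A] [NormedSpace ℂ A]
    [IsScalarTower ℂ A A] [SMulCommClass ℂ A A] : Bimodule A (trip A) where
  L := LinearMap.mkContinuous₂ (LinearMap.mk₂ ℂ lAct
    (by
      intro a b x
      apply Subtype.ext
      refine amb_ext (by first | rfl | (ext c d; simp)) ?_ ?_
      · ext c d; simp [mul_add]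
      · ext c; simp; ring)
    (by
      intro t a x
      apply Subtype.ext
      refine amb_ext (by first | rfl | (ext c d; simp)) ?_ ?_
      · ext c d; simp [mul_smul_comm]
      · ext c; simp)
    (by
      intro a x y
      apply Subtype.ext
      refine amb_ext (by first | rfl | (ext c d; simp)) ?_ ?_
      · ext c d; simp
      · ext c; simp; ring)
    (by
      intro t a x
      apply Subtype.ext
      refine amb_ext (by first | rfl | (ext c d; simp)) ?_ ?_
      · ext c d; simp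
      · ext c; simp)) 1 norm_lAct
  R := LinearMap.mkContinuous₂ (LinearMap.mk₂ ℂ rAct
    (by
      intro a b x
      apply Subtype.ext
      refine amb_ext ?_ (by first | rfl | (ext c d; simp)) ?_
      · ext c d; simp [add_mul]
      · ext c; simp)
    (by
      intro t a x
      apply Subtype.ext
      refine amb_ext ?_ (by first | rfl | (ext c d; simp)) ?_
      · ext c d; simp [smul_mul_assoc]
      · ext c; simp)
    (by
      intro a x y
      apply Subtype.ext
      refine amb_ext ?_ (by first | rfl | (ext c d; simp)) ?_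
      · ext c d; simp
      · ext c; simp)
    (by
      intro t a x
      apply Subtype.ext
      refine amb_ext ?_ (by first | rfl | (ext c d; simp)) ?_
      · ext c d; simp
      · ext c; simp)) 1 norm_rAct
  L_mul := by
    intro a b x
    change lAct (a * b) x = lAct a (lAct b x)
    apply Subtype.ext
    refine amb_ext (by first | rfl | (ext c d; simp)) ?_ ?_
    · ext c d; simp [mul_assoc]
    · ext c; simp
  R_mul := by
    intro a b x
    change rAct (a * b) x = rAct b (rAct a x)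
    apply Subtype.ext
    refine amb_ext ?_ (by first | rfl | (ext c d; simp)) ?_
    · ext c d; simp [mul_assoc]
    · ext c; simp
  comm := by
    intro a b x
    change lAct a (rAct b x) = rAct b (lAct a x)
    apply Subtype.ext
    refine amb_ext ?_ ?_ ?_
    · ext c d; simp
    · ext c d; simp
    · ext c; simp

lemma tripMod_L (a : A) (x : trip A) : (tripMod A).L a x = lAct a x := rfl

lemma tripMod_R (a : A) (x : trip A) : (tripMod A).R a x = rAct a x := rfl

/-- the derivation `D(a)(F, G, k) = k(a)` -/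
noncomputable def tripD (A : Type u) [NonUnitalNormedRing A] [NormedSpace ℂ A] :
    A →L[ℂ] (trip A →L[ℂ] ℂ) :=
  ContinuousLinearMap.flip (pK.comp (trip A).subtypeL)

lemma tripD_apply (a : A) (x : trip A) : tripD A a x = pK x.1 a := rfl

lemma tripD_deriv : (tripMod A).IsDerivation (tripD A) := by
  intro a b
  ext x
  have h3 := x.2.2.2 a b
  simp only [Bimodule.dualL, Bimodule.dualR, FunLike.coe_add, Pi.add_apply,
    ContinuousLinearMap.comp_apply, tripMod_L, tripMod_R, tripD_apply, pK_lAct, pK_rAct,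
    FunLike.coe_neg, Pi.neg_apply, ContinuousLinearMap.flip_apply]
  rw [h3]
  ring

/-- **Obstruction to approximate semi-amenability.** -/
theorem not_approxSemiAmenable {ι : Type*} [Fintype ι] (e : A) (κ : A →L[ℂ] ℂ)
    (hκ : ∀ b, κ (b * e) = κ b) (he : κ e ≠ 0) (a : ι → A) (h : ι → Bil A)
    (hbal : ∀ j x y z, h j (x * y) z = h j x (y * z))
    (h1 : ∀ b, ∑ j, h j (a j) b = 0) (h2 : ∀ b, ∑ j, h j b (a j) = κ b) :
    ¬ ApproxSemiAmenable A := by
  intro hA
  obtain ⟨κι, l, hl, ξ, η, hlim⟩ := hA (trip A) (tripMod A) (tripD A) tripD_deriv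
  -- the elements `x_j = (h_j, h_j, 0)`
  set x : ι → trip A := fun j => ⟨mkA (h j) (h j) 0, hbal j, hbal j, fun _ _ => by simp⟩ with hx
  have xF : ∀ j, pF (x j).1 = h j := fun j => rfl
  have xG : ∀ j, pG (x j).1 = h j := fun j => rfl
  have xK : ∀ j, pK (x j).1 = 0 := fun j => rfl
  have hsum : ∀ b c, ∑ j, h j b (c * a j) = κ (b * c) := by
    intro b c
    rw [← h2]
    exact Finset.sum_congr rfl fun j _ => (hbal j _ _ _).symm
  set y : trip A := ∑ j, lAct (a j) (x j) with hy
  have yF : pF y.1 = 0 := by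
    rw [hy, Submodule.coe_sum, map_sum]
    exact Finset.sum_eq_zero fun j _ => rfl
  have yG : ∀ b c, pG y.1 b c = κ (b * c) := by
    intro b c
    rw [← hsum, hy, Submodule.coe_sum, map_sum]
    simp only [_root_.sum_apply, pG_lAct, lG_apply, xG]
  have yK : ∀ b, pK y.1 b = - κ b := by
    intro b
    rw [← h2, hy, Submodule.coe_sum, map_sum]
    simp only [_root_.sum_apply, pK_lAct, xG, FunLike.coe_neg, Pi.neg_apply,
      ContinuousLinearMap.flip_apply, Finset.sum_neg_distrib]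
  have hz : ∑ j, rAct (a j) (x j) = 0 := by
    apply Subtype.ext
    refine amb_ext ?_ ?_ ?_
    · ext b c
      rw [Submodule.coe_sum, map_sum]
      simp only [_root_.sum_apply, pF_rAct, rF_apply, xF]
      have := h1 (b * c)
      simp only [← hbal] at this
      simpa using this
    · rw [Submodule.coe_sum, map_sum]
      simp
    · ext b
      rw [Submodule.coe_sum, map_sum]
      simp only [_root_.sum_apply, pK_rAct, xF]
      simpa using h1 b
  -- `η_i (y) → 0`
  have e1 : Tendsto (fun i => η i y) l (𝓝 0) := by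
    have t1 : ∀ j, Tendsto (fun i => ξ i (rAct (a j) (x j)) - η i (lAct (a j) (x j))) l (𝓝 0) := by
      intro j
      have := ((ContinuousLinearMap.apply ℂ ℂ (x j)).continuous.tendsto _).comp (hlim (a j))
      have h0 : (ContinuousLinearMap.apply ℂ ℂ (x j)) (tripD A (a j)) = 0 := by
        change tripD A (a j) (x j) = 0
        rw [tripD_apply, xK]
        rfl
      rw [h0] at this
      exact this
    have t2 := tendsto_finsetSum Finset.univ fun j _ => t1 j
    simp only [Finset.sum_const_zero] at t2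
    have t3 := t2.neg
    rw [neg_zero] at t3
    refine t3.congr fun i => ?_
    rw [Finset.sum_sub_distrib, ← map_sum, ← map_sum, hz, map_zero, hy]
    ring
  -- `η_i (y) → κ e`
  have hLy : lAct e y = y := by
    apply Subtype.ext
    refine amb_ext ?_ ?_ ?_
    · rw [yF]; rfl
    · ext b c
      rw [pG_lAct, lG_apply, yG, yG, ← mul_assoc, hκ]
    · ext b
      rw [pK_lAct, FunLike.coe_neg, Pi.neg_apply, ContinuousLinearMap.flip_apply, yG, hκ, yK]
  have hRy : rAct e y = 0 := by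
    apply Subtype.ext
    refine amb_ext ?_ ?_ ?_
    · rw [pF_rAct, yF]; rfl
    · rfl
    · rw [pK_rAct, yF]; rfl
  have e2 : Tendsto (fun i => η i y) l (𝓝 (κ e)) := by
    have := ((ContinuousLinearMap.apply ℂ ℂ y).continuous.tendsto _).comp (hlim e)
    have h0 : (ContinuousLinearMap.apply ℂ ℂ y) (tripD A e) = -κ e := by
      change tripD A e y = -κ e
      rw [tripD_apply, yK]
    rw [h0] at this
    have t3 := this.neg
    rw [neg_neg] at t3
    refine t3.congr fun i => ?_
    have : (⇑((ContinuousLinearMap.apply ℂ ℂ) y) ∘ fun i => (tripMod A).dualL e (ξ i) -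
        (tripMod A).dualR e (η i)) i = ξ i (rAct e y) - η i (lAct e y) := rfl
    rw [this, hLy, hRy, map_zero]
    ring
  exact he (tendsto_nhds_unique e2 e1)

end Pool.Agent.Q193.SA
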