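import Mathlib

set_option autoImplicit false

open scoped Topology
open Filter

namespace Pool.Agent.Q193.SA

lemma holder3 {γ u v : ℕ → ℝ} {r : ℝ} (hr : 2 < r) (hγ0 : ∀ m, 0 ≤ γ m) (hu0 : ∀ m, 0 ≤ u m)
    (hv0 : ∀ m, 0 ≤ v m) (hγ : Summable fun m => γ m ^ (r / (r - 2)))
    (hu : Summable fun m => u m ^ r) (hv : Summable fun m => v m ^ r) {U V : ℝ} (hU : 0 ≤ U)
    (hV : 0 ≤ V) (hu' : ∑' m, u m ^ r ≤ U ^ r) (hv' : ∑' m, v m ^ r ≤ V ^ r) :
    (Summable fun m => γ m * (u m * v m)) ∧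
      ∑' m, γ m * (u m * v m) ≤
        (∑' m, γ m ^ (r / (r - 2))) ^ (1 / (r / (r - 2))) * (U * V) := by
  have hr0 : 0 < r := by linarith
  have hr2 : 0 < r - 2 := by linarith
  have hsq : ∀ t : ℝ, 0 ≤ t → (t ^ (r / 2)) ^ (2 : ℝ) = t ^ r := by
    intro t ht
    rw [← Real.rpow_mul ht]
    congr 1
    ring
  have c22 : (2 : ℝ).HolderConjugate 2 := Real.HolderConjugate.two_two
  have s1 := Real.summable_and_inner_le_Lp_mul_Lq_tsum_of_nonneg c22
    (f := fun m => u m ^ (r / 2)) (g := fun m => v m ^ (r / 2))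
    (fun m => Real.rpow_nonneg (hu0 m) _) (fun m => Real.rpow_nonneg (hv0 m) _)
    (by simpa only [hsq _ (hu0 _)] using hu) (by simpa only [hsq _ (hv0 _)] using hv)
  simp only [hsq _ (hu0 _), hsq _ (hv0 _)] at s1
  obtain ⟨s1, s2⟩ := s1
  have hmul : ∀ m, (u m * v m) ^ (r / 2) = u m ^ (r / 2) * v m ^ (r / 2) := fun m =>
    Real.mul_rpow (hu0 m) (hv0 m)
  have s2' : ∑' m, u m ^ (r / 2) * v m ^ (r / 2) ≤ (U * V) ^ (r / 2) := by
    refine s2.trans ?_
    have e1 : (∑' m, u m ^ r) ^ (1 / (2 : ℝ)) ≤ U ^ (r / 2) := by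
      calc (∑' m, u m ^ r) ^ (1 / (2 : ℝ)) ≤ (U ^ r) ^ (1 / (2 : ℝ)) :=
            Real.rpow_le_rpow (tsum_nonneg fun m => Real.rpow_nonneg (hu0 m) _) hu' (by norm_num)
        _ = U ^ (r / 2) := by rw [← Real.rpow_mul hU]; congr 1; ring
    have e2 : (∑' m, v m ^ r) ^ (1 / (2 : ℝ)) ≤ V ^ (r / 2) := by
      calc (∑' m, v m ^ r) ^ (1 / (2 : ℝ)) ≤ (V ^ r) ^ (1 / (2 : ℝ)) :=
            Real.rpow_le_rpow (tsum_nonneg fun m => Real.rpow_nonneg (hv0 m) _) hv' (by norm_num)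
        _ = V ^ (r / 2) := by rw [← Real.rpow_mul hV]; congr 1; ring
    rw [Real.mul_rpow hU hV]
    exact mul_le_mul e1 e2 (Real.rpow_nonneg (tsum_nonneg fun m => Real.rpow_nonneg (hv0 m) _) _)
      (Real.rpow_nonneg hU _)
  have cq : (r / (r - 2)).HolderConjugate (r / 2) := by
    rw [Real.holderConjugate_iff]
    refine ⟨?_, ?_⟩
    · rw [lt_div_iff₀ hr2]; linarith
    · field_simp
      ring
  have t1 := Real.summable_and_inner_le_Lp_mul_Lq_tsum_of_nonneg cq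
    (f := γ) (g := fun m => u m * v m) hγ0 (fun m => mul_nonneg (hu0 m) (hv0 m)) hγ
    (by simpa only [hmul] using s1)
  simp only [hmul] at t1
  refine ⟨t1.1, t1.2.trans ?_⟩
  have hG : 0 ≤ (∑' m, γ m ^ (r / (r - 2))) ^ (1 / (r / (r - 2))) :=
    Real.rpow_nonneg (tsum_nonneg fun m => Real.rpow_nonneg (hγ0 m) _) _
  refine mul_le_mul_of_nonneg_left ?_ hG
  have hUV : 0 ≤ U * V := mul_nonneg hU hV
  calc (∑' m, u m ^ (r / 2) * v m ^ (r / 2)) ^ (1 / (r / 2))
      ≤ ((U * V) ^ (r / 2)) ^ (1 / (r / 2)) := by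
        refine Real.rpow_le_rpow (tsum_nonneg fun m => ?_) s2' (by positivity)
        exact mul_nonneg (Real.rpow_nonneg (hu0 m) _) (Real.rpow_nonneg (hv0 m) _)
    _ = U * V := by
        rw [← Real.rpow_mul hUV, mul_one_div_cancel (by positivity), Real.rpow_one]

/-! weights on the binary tree -/

/-- the weight `2^{-level}` of the node `m` of the binary tree (children `2m+1`, `2m+2`) -/
noncomputable def tw (m : ℕ) : ℝ := ((2 : ℝ) ^ Nat.log 2 (m + 1))⁻¹

lemma tw_pos (m : ℕ) : 0 < tw m := by unfold tw; positivity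

lemma tw_zero : tw 0 = 1 := by simp [tw]

lemma tw_odd (m : ℕ) : tw (2 * m + 1) = tw m / 2 := by
  unfold tw
  rw [Nat.log_of_one_lt_of_le (by norm_num) (by omega : 2 ≤ 2 * m + 1 + 1)]
  have : (2 * m + 1 + 1) / 2 = m + 1 := by omega
  rw [this, pow_succ]
  field_simp

lemma tw_even (m : ℕ) : tw (2 * m + 2) = tw m / 2 := by
  unfold tw
  rw [Nat.log_of_one_lt_of_le (by norm_num) (by omega : 2 ≤ 2 * m + 2 + 1)]
  have : (2 * m + 2 + 1) / 2 = m + 1 := by omega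
  rw [this, pow_succ]
  field_simp

lemma tw_le (m : ℕ) : tw m ≤ 2 / ((m : ℝ) + 1) := by
  have h1 : m + 1 < 2 ^ (Nat.log 2 (m + 1) + 1) := Nat.lt_pow_succ_log_self (by norm_num) _
  have h2 : ((m : ℝ) + 1) < 2 ^ Nat.log 2 (m + 1) * 2 := by
    rw [← pow_succ]
    exact_mod_cast h1
  unfold tw
  rw [inv_eq_one_div, div_le_div_iff₀ (by positivity) (by positivity)]
  linarith

/-- `c_m = (m+1)^{-s}` -/
noncomputable def cw (s : ℝ) (m : ℕ) : ℝ := ((m : ℝ) + 1) ^ (-s)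

/-- `γ_m = 2^{-level} (m+1)^s` -/
noncomputable def gw (s : ℝ) (m : ℕ) : ℝ := tw m * ((m : ℝ) + 1) ^ s

lemma cw_pos (s : ℝ) (m : ℕ) : 0 < cw s m := by unfold cw; positivity

lemma gw_pos (s : ℝ) (m : ℕ) : 0 < gw s m := by
  unfold gw
  have := tw_pos m
  positivity

lemma gw_mul_cw (s : ℝ) (m : ℕ) : gw s m * cw s m = tw m := by
  unfold gw cw
  rw [mul_assoc, ← Real.rpow_add (by positivity), add_neg_cancel, Real.rpow_zero, mul_one]

lemma summable_shift {t : ℝ} (ht : 1 < t) : Summable fun m : ℕ => ((m : ℝ) + 1) ^ (-t) := by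
  have h := (summable_nat_add_iff 1).2 (Real.summable_nat_rpow.2 (by linarith : -t < -1))
  simpa using h

lemma summable_cw {s p : ℝ} (hsp : 1 < s * p) : Summable fun m => cw s m ^ p := by
  refine (summable_shift hsp).congr fun m => ?_
  unfold cw
  rw [← Real.rpow_mul (by positivity)]
  congr 1
  ring

lemma summable_gw {s r : ℝ} (hr : 2 < r) (hsr : s * r < 2) :
    Summable fun m => gw s m ^ (r / (r - 2)) := by
  have hr2 : 0 < r - 2 := by linarith
  set q := r / (r - 2) with hq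
  have hq0 : 0 < q := by positivity
  have h1 : 1 < (1 - s) * q := by
    rw [hq, ← mul_div_assoc, lt_div_iff₀ hr2]
    linarith
  refine Summable.of_nonneg_of_le (fun m => Real.rpow_nonneg (gw_pos s m).le _) (fun m => ?_)
    ((summable_shift h1).mul_left ((2 : ℝ) ^ q))
  have h2 : gw s m ≤ 2 * ((m : ℝ) + 1) ^ (-(1 - s)) := by
    unfold gw
    calc tw m * ((m : ℝ) + 1) ^ s ≤ 2 / ((m : ℝ) + 1) * ((m : ℝ) + 1) ^ s := by
          gcongr
          exact tw_le m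
      _ = 2 * ((m : ℝ) + 1) ^ (-(1 - s)) := by
          rw [neg_sub, Real.rpow_sub_one (by positivity)]
          ring
  calc gw s m ^ q ≤ (2 * ((m : ℝ) + 1) ^ (-(1 - s))) ^ q := by
        gcongr
        exact (gw_pos s m).le
    _ = 2 ^ q * ((m : ℝ) + 1) ^ (-((1 - s) * q)) := by
        rw [Real.mul_rpow (by norm_num) (by positivity), ← Real.rpow_mul (by positivity)]
        congr 2
        ring

end Pool.Agent.Q193.SA
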