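import Pool.Agent.Q193.SA.Alg
import Pool.Agent.Q193.SA.Holder
import Pool.Agent.Q193.SA.Crit

set_option autoImplicit false
set_option linter.unusedSectionVars false
open scoped InnerProductSpace ENNReal NNReal Topology
open Pool.Agent.Helper526.Sch Filter

/-!
`𝔖_p(H)` is not approximately semi-amenable for `1 < p < ∞`.
-/

namespace Pool.Agent.Q193.SA

universe u v w w'

variable {H : Type u} [NormedAddCommGroup H] [InnerProductSpace ℂ H] [CompleteSpace H]

lemma trAbsPow_mono (b : HilbertBasis ℕ ℂ H) {X : H →L[ℂ] H} (hX : IsCompactOperator X) {p r : ℝ}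
    (hp : 1 ≤ p) (hpr : p ≤ r) (hXf : trAbsPow b p X < ∞) :
    trAbsPow b r X ≤ ENNReal.ofReal (schattenNorm b p X ^ r) := by
  have hp0 : 0 < p := by linarith
  obtain ⟨κ, v, lam, hv⟩ := exists_eigenbasis' (Cpt.of_compact hX).1
  have hlam := eigen_nonneg v hv
  set N := schattenNorm b p X with hN
  have hN0 : 0 ≤ N := sn_nonneg b p X
  have hle : ∀ k, ‖X (v k)‖ ≤ N := fun k => by
    have h1 := X.le_opNorm (v k)
    rw [v.orthonormal.1 k, mul_one] at h1
    exact h1.trans (opNorm_le_sn b (Cpt.of_compact hX).1 hp hXf)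
  have hfin := trAbsPow_eq_ofReal b hp0 hXf
  rw [trAbsPow_eq b v hv hp0] at hfin
  rw [trAbsPow_eq b v hv (by linarith)]
  have h2 : ∀ k, ENNReal.ofReal (lam k ^ (r / 2)) ≤
      ENNReal.ofReal (lam k ^ (p / 2)) * ENNReal.ofReal (N ^ (r - p)) := by
    intro k
    rw [← ENNReal.ofReal_mul (Real.rpow_nonneg (by rw [hlam]; positivity) _)]
    apply ENNReal.ofReal_le_ofReal
    rw [hlam, rpow_two_mul_half (norm_nonneg _), rpow_two_mul_half (norm_nonneg _)]
    rcases eq_or_lt_of_le (norm_nonneg (X (v k))) with h0 | h0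
    · rw [← h0, Real.zero_rpow (by linarith), Real.zero_rpow (by linarith), zero_mul]
    · calc ‖X (v k)‖ ^ r = ‖X (v k)‖ ^ p * ‖X (v k)‖ ^ (r - p) := by
            rw [← Real.rpow_add h0]; congr 1; ring
        _ ≤ ‖X (v k)‖ ^ p * N ^ (r - p) := mul_le_mul_of_nonneg_left
            (Real.rpow_le_rpow (norm_nonneg _) (hle k) (by linarith)) (by positivity)
  refine (ENNReal.tsum_le_tsum h2).trans ?_
  rw [ENNReal.tsum_mul_right, hfin, ← ENNReal.ofReal_mul (by positivity)]
  apply ENNReal.ofReal_le_ofReal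
  rcases eq_or_lt_of_le hN0 with h0 | h0
  · rw [← hN, ← h0, Real.zero_rpow hp0.ne', zero_mul]
    positivity
  · rw [← hN, ← Real.rpow_add h0]
    apply le_of_eq
    congr 1
    ring

variable {b : HilbertBasis ℕ ℂ H} {p : ℝ} [hp : Fact (1 ≤ p)]

lemma sum_apply_le {r : ℝ} (hr2 : 2 ≤ r) (hpr : p ≤ r) {X : H →L[ℂ] H}
    (hX : IsCompactOperator X) (hXf : trAbsPow b p X < ∞) {σ : ℕ → ℕ}
    (hσ : Function.Injective σ) {N : ℝ} (hN0 : 0 ≤ N) (hN : schattenNorm b p X ≤ N) :
    (Summable fun m => ‖X (b (σ m))‖ ^ r) ∧ ∑' m, ‖X (b (σ m))‖ ^ r ≤ N ^ r := by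
  have h1 : ∑' m, ENNReal.ofReal (‖X (b (σ m))‖ ^ r) ≤ ENNReal.ofReal (N ^ r) := by
    calc ∑' m, ENNReal.ofReal (‖X (b (σ m))‖ ^ r) ≤ ∑' m, ENNReal.ofReal (‖X (b m)‖ ^ r) :=
          ENNReal.tsum_comp_le_tsum_of_injective hσ (fun m => ENNReal.ofReal (‖X (b m)‖ ^ r))
      _ ≤ trAbsPow b r X := sum_norm_le b b (Cpt.of_compact hX).1 hr2
      _ ≤ _ := trAbsPow_mono b hX hp.out hpr hXf
      _ ≤ _ := by
          apply ENNReal.ofReal_le_ofReal
          exact Real.rpow_le_rpow (sn_nonneg b p X) hN (by linarith)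
  have h2 : Summable fun m => ‖X (b (σ m))‖ ^ r := by
    have h3 : ∑' m, ENNReal.ofReal (‖X (b (σ m))‖ ^ r) ≠ ∞ := (h1.trans_lt ENNReal.ofReal_lt_top).ne
    have h4 := ENNReal.summable_toReal h3
    refine h4.congr fun m => ?_
    rw [ENNReal.toReal_ofReal (by positivity)]
  refine ⟨h2, ?_⟩
  rw [← ENNReal.ofReal_tsum_of_nonneg (fun m => by positivity) h2] at h1
  exact (ENNReal.ofReal_le_ofReal_iff (Real.rpow_nonneg hN0 r)).1 h1

/-- The bound for the form `(y, x) ↦ ∑ γ_m ⟪b_{σ m}, y x b_m⟫`. -/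
lemma form_bound {r : ℝ} (hr2 : 2 < r) (hpr : p ≤ r) {σ : ℕ → ℕ} (hσ : Function.Injective σ)
    {γ : ℕ → ℝ} (hγ0 : ∀ m, 0 ≤ γ m) (hγ : Summable fun m => γ m ^ (r / (r - 2)))
    (y x : SchattenAlg b p) :
    (Summable fun m => ‖(γ m : ℂ) * ⟪b (σ m), y.op (x.op (b m))⟫_ℂ‖) ∧
      ∑' m, ‖(γ m : ℂ) * ⟪b (σ m), y.op (x.op (b m))⟫_ℂ‖ ≤
        (∑' m, γ m ^ (r / (r - 2))) ^ (1 / (r / (r - 2))) * ‖y‖ * ‖x‖ := by
  have hys : IsCompactOperator (star y.op : H →L[ℂ] H) := compact_star y.compact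
  have hyf : trAbsPow b p (star y.op) < ∞ := by
    rw [trAbsPow_star b (Cpt.of_compact y.compact) (SchattenAlg.p_pos (p := p))]
    exact y.fin
  have hyn : schattenNorm b p (star y.op) = ‖y‖ := sn_star b y.compact (SchattenAlg.p_pos (p := p))
  have hu := sum_apply_le (p := p) hr2.le hpr hys hyf hσ (norm_nonneg y) hyn.le
  have hv := sum_apply_le (p := p) hr2.le hpr x.compact x.fin (σ := id) Function.injective_id
    (norm_nonneg x) le_rfl
  simp only [id_eq] at hv
  obtain ⟨t1, t2⟩ := holder3 hr2 hγ0 (fun m => norm_nonneg _) (fun m => norm_nonneg _) hγ hu.1 hv.1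
    (norm_nonneg y) (norm_nonneg x) hu.2 hv.2
  have hle : ∀ m, ‖(γ m : ℂ) * ⟪b (σ m), y.op (x.op (b m))⟫_ℂ‖ ≤
      γ m * (‖(star y.op) (b (σ m))‖ * ‖x.op (b m)‖) := by
    intro m
    rw [norm_mul, Complex.norm_real, Real.norm_of_nonneg (hγ0 m), ← inner_star_left]
    exact mul_le_mul_of_nonneg_left (norm_inner_le_norm _ _) (hγ0 m)
  have hs : Summable fun m => ‖(γ m : ℂ) * ⟪b (σ m), y.op (x.op (b m))⟫_ℂ‖ :=
    Summable.of_nonneg_of_le (fun m => norm_nonneg _) hle t1
  refine ⟨hs, (hs.tsum_le_tsum hle t1).trans (t2.trans (le_of_eq (by ring)))⟩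

/-- parameters of the construction -/
structure Par (p : ℝ) where
  /-- weight exponent -/
  s : ℝ
  /-- summability exponent -/
  r : ℝ
  hr : 2 < r
  hpr : p ≤ r
  hsr : s * r < 2
  hsp : 1 < s * p

lemma exists_par (hp1 : 1 < p) : Nonempty (Par p) := by
  rcases le_total p 2 with h2 | h2
  · -- `1/p < s < 1`
    have h3 : 1 / p < 1 := by rw [div_lt_one (by linarith)]; exact hp1
    obtain ⟨s, hs1, hs2⟩ := exists_between h3
    have hs0 : 0 < s := lt_trans (by positivity) hs1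
    have h4 : 2 < 2 / s := by rw [lt_div_iff₀ hs0]; linarith
    obtain ⟨r, hr1, hr2⟩ := exists_between h4
    refine ⟨⟨s, r, hr1, by linarith, ?_, ?_⟩⟩
    · rw [lt_div_iff₀ hs0] at hr2; linarith
    · rw [div_lt_iff₀ (by linarith)] at hs1; linarith
  · have h3 : 1 / p < 2 / p := by gcongr; norm_num
    obtain ⟨s, hs1, hs2⟩ := exists_between h3
    have hs0 : 0 < s := lt_trans (by positivity) hs1
    have h5 : p < 2 / s := by
      rw [lt_div_iff₀ hs0]; rw [lt_div_iff₀ (by linarith)] at hs2; linarith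
    obtain ⟨r, hr1, hr2⟩ := exists_between h5
    refine ⟨⟨s, r, by linarith, by linarith, ?_, ?_⟩⟩
    · rw [lt_div_iff₀ hs0] at hr2; linarith
    · rw [div_lt_iff₀ (by linarith)] at hs1; linarith

/-- the form `(y, x) ↦ ∑ γ_m ⟪b_{σ m}, y x b_m⟫` as a bounded bilinear form on `𝔖_p` -/
noncomputable def frm (P : Par p) (σ : ℕ → ℕ) (hσ : Function.Injective σ) :
    Bil (SchattenAlg b p) :=
  LinearMap.mkContinuous₂ (LinearMap.mk₂ ℂ
    (fun y x => ∑' m, (gw P.s m : ℂ) * ⟪b (σ m), y.op (x.op (b m))⟫_ℂ)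
    (by
      intro y y' x
      rw [← Summable.tsum_add]
      · congr 1
        funext m
        simp only [SchattenAlg.op_add, FunLike.coe_add, Pi.add_apply, inner_add_right]
        ring
      · exact (form_bound P.hr P.hpr hσ (fun m => (gw_pos P.s m).le)
          (summable_gw P.hr P.hsr) y x).1.of_norm
      · exact (form_bound P.hr P.hpr hσ (fun m => (gw_pos P.s m).le)
          (summable_gw P.hr P.hsr) y' x).1.of_norm)
    (by
      intro c y x
      rw [smul_eq_mul, ← tsum_mul_left]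
      congr 1
      funext m
      simp only [SchattenAlg.op_smul, FunLike.coe_smul, Pi.smul_apply, inner_smul_right]
      ring)
    (by
      intro y x x'
      rw [← Summable.tsum_add]
      · congr 1
        funext m
        simp only [SchattenAlg.op_add, FunLike.coe_add, Pi.add_apply, map_add, inner_add_right]
        ring
      · exact (form_bound P.hr P.hpr hσ (fun m => (gw_pos P.s m).le)
          (summable_gw P.hr P.hsr) y x).1.of_norm
      · exact (form_bound P.hr P.hpr hσ (fun m => (gw_pos P.s m).le)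
          (summable_gw P.hr P.hsr) y x').1.of_norm)
    (by
      intro c y x
      rw [smul_eq_mul, ← tsum_mul_left]
      congr 1
      funext m
      simp only [SchattenAlg.op_smul, FunLike.coe_smul, Pi.smul_apply, map_smul, inner_smul_right]
      ring))
    ((∑' m, gw P.s m ^ (P.r / (P.r - 2))) ^ (1 / (P.r / (P.r - 2))))
    (by
      intro y x
      obtain ⟨h1, h2⟩ := form_bound P.hr P.hpr hσ (fun m => (gw_pos P.s m).le)
          (summable_gw P.hr P.hsr) y x
      exact (norm_tsum_le_tsum_norm h1).trans h2)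

lemma frm_apply (P : Par p) (σ : ℕ → ℕ) (hσ : Function.Injective σ) (y x : SchattenAlg b p) :
    frm P σ hσ y x = ∑' m, (gw P.s m : ℂ) * ⟪b (σ m), y.op (x.op (b m))⟫_ℂ := rfl

lemma frm_summable (P : Par p) (σ : ℕ → ℕ) (hσ : Function.Injective σ) (y x : SchattenAlg b p) :
    Summable fun m => (gw P.s m : ℂ) * ⟪b (σ m), y.op (x.op (b m))⟫_ℂ :=
  (form_bound P.hr P.hpr hσ (fun m => (gw_pos P.s m).le) (summable_gw P.hr P.hsr) y x).1.of_norm

lemma frm_bal (P : Par p) (σ : ℕ → ℕ) (hσ : Function.Injective σ) (x y z : SchattenAlg b p) :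
    frm P σ hσ (x * y) z = frm P σ hσ x (y * z) := rfl

/-! the weighted shifts -/

/-- the matrix unit `e_{ij}` as an element of `𝔖_p` -/
noncomputable def mu (b : HilbertBasis ℕ ℂ H) (p : ℝ) [hp : Fact (1 ≤ p)] (i j : ℕ) :
    SchattenAlg b p :=
  ⟨matUnit b i j, matUnit_compact b i j, by
    rw [trAbsPow_matUnit b i j (SchattenAlg.p_pos (p := p))]; simp⟩

/-- `op` as an additive hom is compatible with finite sums -/
lemma op_sum {α : Type*} (s : Finset α) (f : α → SchattenAlg b p) :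
    (∑ i ∈ s, f i).op = ∑ i ∈ s, (f i).op :=
  map_sum (SchattenAlg.opHom (b := b) (p := p)) f s

lemma norm_sum_mu {σ : ℕ → ℕ} (hσ : Function.Injective σ) (c : ℕ → ℝ) (hc : ∀ m, 0 ≤ c m)
    (s : Finset ℕ) :
    ‖∑ m ∈ s, (c m : ℂ) • mu b p (σ m) m‖ ^ p = ∑ m ∈ s, c m ^ p := by
  classical
  have hp0 : 0 < p := SchattenAlg.p_pos (p := p)
  set x := ∑ m ∈ s, (c m : ℂ) • mu b p (σ m) m with hx
  have hxop : x.op = ∑ m ∈ s, (c m : ℂ) • matUnit b (σ m) m := by
    rw [hx, op_sum]
    rfl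
  have hxb : ∀ k, x.op (b k) = if k ∈ s then (c k : ℂ) • b (σ k) else 0 := by
    intro k
    rw [hxop, sum_apply]
    have : ∀ m ∈ s, ((c m : ℂ) • matUnit b (σ m) m) (b k) =
        if k = m then (c k : ℂ) • b (σ k) else 0 := by
      intro m _
      rw [FunLike.coe_smul, Pi.smul_apply, matUnit_apply, inner_basis b]
      by_cases h : k = m
      · subst h; simp
      · simp [h, Ne.symm h]
    rw [Finset.sum_congr rfl this, Finset.sum_ite_eq]
  have hv : ∀ k, (star x.op * x.op) (b k) = (((if k ∈ s then c k ^ 2 else 0 : ℝ)) : ℂ) • b k := by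
    intro k
    have h1 : (star x.op * x.op) (b k) = (star x.op) (x.op (b k)) := rfl
    rw [h1]
    -- compare coordinates
    refine b.repr.injective ?_
    ext j
    rw [HilbertBasis.repr_apply_apply, HilbertBasis.repr_apply_apply, inner_star_right, hxb, hxb,
      inner_smul_right, inner_basis b]
    by_cases hk : k ∈ s
    · by_cases hj : j ∈ s
      · rw [if_pos hk, if_pos hj, if_pos hk, inner_smul_left, inner_smul_right, inner_basis b]
        by_cases hjk : j = k
        · subst hjk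
          simp
          ring
        · simp [hjk, hσ.ne hjk]
      · rw [if_pos hk, if_neg hj, if_pos hk]
        have hjk : j ≠ k := fun h => hj (h ▸ hk)
        simp [hjk]
    · rw [if_neg hk, if_neg hk]
      simp
  rw [SchattenAlg.norm_def, sn_rpow b hp0, trAbsPow_eq b b hv hp0]
  have h2 : ∀ k, ENNReal.ofReal ((if k ∈ s then c k ^ 2 else 0 : ℝ) ^ (p / 2)) =
      if k ∈ s then ENNReal.ofReal (c k ^ p) else 0 := by
    intro k
    by_cases hk : k ∈ s
    · rw [if_pos hk, if_pos hk, rpow_two_mul_half (hc k)]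
    · rw [if_neg hk, if_neg hk, Real.zero_rpow (by positivity), ENNReal.ofReal_zero]
  simp_rw [h2]
  rw [tsum_eq_sum (s := s) (fun k hk => if_neg hk)]
  rw [Finset.sum_congr rfl (fun k hk => if_pos hk),
    ← ENNReal.ofReal_sum_of_nonneg (fun k _ => Real.rpow_nonneg (hc k) _),
    ENNReal.toReal_ofReal (Finset.sum_nonneg fun k _ => Real.rpow_nonneg (hc k) _)]

lemma summable_mu {σ : ℕ → ℕ} (hσ : Function.Injective σ) (c : ℕ → ℝ) (hc : ∀ m, 0 ≤ c m)
    (hcs : Summable fun m => c m ^ p) :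
    Summable fun m => (c m : ℂ) • mu b p (σ m) m := by
  have hp0 : 0 < p := SchattenAlg.p_pos (p := p)
  rw [summable_iff_vanishing_norm]
  intro ε hε
  obtain ⟨s, hs⟩ := summable_iff_vanishing_norm.1 hcs (ε ^ p) (by positivity)
  refine ⟨s, fun t ht => ?_⟩
  have h1 := hs t ht
  rw [Real.norm_of_nonneg (Finset.sum_nonneg fun k _ => Real.rpow_nonneg (hc k) _),
    ← norm_sum_mu (b := b) hσ c hc t] at h1
  exact (Real.rpow_lt_rpow_iff (norm_nonneg _) hε.le hp0).1 h1

/-- the weighted shift `b_m ↦ c_m b_{σ m}` -/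
noncomputable def shf (P : Par p) (b : HilbertBasis ℕ ℂ H) (σ : ℕ → ℕ) : SchattenAlg b p :=
  ∑' m, (cw P.s m : ℂ) • mu b p (σ m) m

lemma opCont : Continuous (SchattenAlg.op : SchattenAlg b p → (H →L[ℂ] H)) :=
  (LipschitzWith.of_dist_le_mul (K := 1) fun x y => by
    rw [dist_eq_norm, dist_eq_norm, NNReal.coe_one, one_mul]
    exact SchattenAlg.opNorm_le (x - y)).continuous

lemma hasSum_op {f : ℕ → SchattenAlg b p} {x : SchattenAlg b p} (h : HasSum f x) (z : H) :
    HasSum (fun m => (f m).op z) (x.op z) := by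
  have h1 : HasSum (fun m => (f m).op) x.op := by
    have := h.map (SchattenAlg.opHom (b := b) (p := p)) opCont
    exact this
  exact h1.mapL (ContinuousLinearMap.apply ℂ H z)

lemma shf_apply_basis (P : Par p) {σ : ℕ → ℕ} (hσ : Function.Injective σ) (m : ℕ) :
    (shf P b σ).op (b m) = (cw P.s m : ℂ) • b (σ m) := by
  classical
  have hs : HasSum (fun m => (cw P.s m : ℂ) • mu b p (σ m) m) (shf P b σ) :=
    (summable_mu hσ (cw P.s) (fun m => (cw_pos P.s m).le) (summable_cw P.hsp)).hasSum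
  have h1 := hasSum_op hs (b m)
  have h2 : HasSum (fun k => ((cw P.s k : ℂ) • mu b p (σ k) k).op (b m))
      ((cw P.s m : ℂ) • b (σ m)) := by
    have : (fun k => ((cw P.s k : ℂ) • mu b p (σ k) k).op (b m)) =
        fun k => if k = m then (cw P.s m : ℂ) • b (σ m) else 0 := by
      funext k
      change ((cw P.s k : ℂ) • matUnit b (σ k) k) (b m) = _
      rw [FunLike.coe_smul, Pi.smul_apply, matUnit_apply, inner_basis b]
      by_cases h : k = m
      · subst h; simp
      · simp [h]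
    rw [this]
    exact hasSum_ite_eq m _
  exact h1.unique h2

lemma inner_shf (P : Par p) {σ : ℕ → ℕ} (hσ : Function.Injective σ) (m : ℕ) (z : H) :
    ⟪b (σ m), (shf P b σ).op z⟫_ℂ = (cw P.s m : ℂ) * ⟪b m, z⟫_ℂ := by
  classical
  have h1 := ((b.hasSum_repr z).mapL (shf P b σ).op).mapL (innerSL ℂ (b (σ m)))
  have h2 : (fun k => (innerSL ℂ (b (σ m))) ((shf P b σ).op (b.repr z k • b k))) =
      fun k => if k = m then (cw P.s m : ℂ) * ⟪b m, z⟫_ℂ else 0 := by
    funext k
    rw [map_smul, shf_apply_basis P hσ, innerSL_apply_apply, inner_smul_right, inner_smul_right,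
      inner_basis b, b.repr_apply_apply]
    by_cases h : k = m
    · subst h; simp; ring
    · rw [if_neg (fun h' => h (hσ h').symm), if_neg h]
      ring
  rw [h2] at h1
  exact h1.unique (hasSum_ite_eq m _)

/-- left children -/
def s1 (m : ℕ) : ℕ := 2 * m + 1

/-- right children -/
def s2 (m : ℕ) : ℕ := 2 * m + 2

lemma s1_inj : Function.Injective s1 := fun a b h => by unfold s1 at h; omega

lemma s2_inj : Function.Injective s2 := fun a b h => by unfold s2 at h; omega

lemma frm_shf_left (P : Par p) {σ : ℕ → ℕ} (hσ : Function.Injective σ) (x : SchattenAlg b p) :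
    frm P σ hσ (shf P b σ) x = ∑' m, (tw m : ℂ) * ⟪b m, x.op (b m)⟫_ℂ := by
  rw [frm_apply]
  congr 1
  funext m
  rw [inner_shf P hσ, ← mul_assoc, ← gw_mul_cw P.s m]
  push_cast
  ring

lemma frm_shf_right_term (P : Par p) {σ : ℕ → ℕ} (hσ : Function.Injective σ)
    (x : SchattenAlg b p) (m : ℕ) :
    (gw P.s m : ℂ) * ⟪b (σ m), x.op ((shf P b σ).op (b m))⟫_ℂ =
      (tw m : ℂ) * ⟪b (σ m), x.op (b (σ m))⟫_ℂ := by
  rw [shf_apply_basis P hσ, map_smul, inner_smul_right, ← mul_assoc, ← gw_mul_cw P.s m]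
  push_cast
  ring

lemma frm_shf_right (P : Par p) {σ : ℕ → ℕ} (hσ : Function.Injective σ) (x : SchattenAlg b p) :
    frm P σ hσ x (shf P b σ) = ∑' m, (tw m : ℂ) * ⟪b (σ m), x.op (b (σ m))⟫_ℂ := by
  rw [frm_apply]
  congr 1
  funext m
  exact frm_shf_right_term P hσ x m

lemma summable_tw (P : Par p) (x : SchattenAlg b p) :
    Summable fun m => (tw m : ℂ) * ⟪b m, x.op (b m)⟫_ℂ := by
  have h := frm_summable P id Function.injective_id x (shf P b id)
  refine h.congr fun m => ?_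
  exact frm_shf_right_term P Function.injective_id x m

lemma tree_sum {g : ℕ → ℂ} (hg : Summable g) :
    ∑' m, g m = g 0 + ∑' m, g (2 * m + 1) + ∑' m, g (2 * m + 2) := by
  have h1 := hg.tsum_eq_zero_add
  have hG : Summable fun m => g (m + 1) := (summable_nat_add_iff 1).2 hg
  have h2 : ∑' k, g (2 * k + 1) + ∑' k, g (2 * k + 1 + 1) = ∑' k, g (k + 1) := by
    refine tsum_even_add_odd (f := fun m => g (m + 1)) ?_ ?_
    · exact hG.comp_injective (i := fun k => 2 * k) (fun a b h => by simpa using h)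
    · exact hG.comp_injective (i := fun k => 2 * k + 1) (fun a b h => by simpa using h)
  rw [h1, ← h2]
  ring

/-- the functional `x ↦ ⟪b 0, x b 0⟫` -/
noncomputable def kap (b : HilbertBasis ℕ ℂ H) (p : ℝ) [Fact (1 ≤ p)] : SchattenAlg b p →L[ℂ] ℂ :=
  LinearMap.mkContinuous
    { toFun := fun x => ⟪b 0, x.op (b 0)⟫_ℂ
      map_add' := fun x y => by
        simp only [SchattenAlg.op_add, FunLike.coe_add, Pi.add_apply, inner_add_right]
      map_smul' := fun c x => by
        simp only [SchattenAlg.op_smul, FunLike.coe_smul, Pi.smul_apply, inner_smul_right]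
        rfl } 1
    (fun x => by
      rw [one_mul]
      have h1 := norm_inner_le_norm (𝕜 := ℂ) (b 0) (x.op (b 0))
      have h2 := x.op.le_opNorm (b 0)
      rw [b.orthonormal.1 0] at h1 h2
      have h3 := SchattenAlg.opNorm_le x
      change ‖⟪b 0, x.op (b 0)⟫_ℂ‖ ≤ ‖x‖
      linarith)

lemma kap_apply (x : SchattenAlg b p) : kap b p x = ⟪b 0, x.op (b 0)⟫_ℂ := rfl

lemma mu_zero_apply : (mu b p 0 0).op (b 0) = b 0 := by
  change matUnit b 0 0 (b 0) = b 0
  rw [matUnit_apply, inner_basis b, if_pos rfl, one_smul]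

/-- **`𝔖_p(H)` is not approximately semi-amenable for `p > 1`.** -/
theorem not_semi (hp1 : 1 < p) : ¬ ApproxSemiAmenable (SchattenAlg b p) := by
  obtain ⟨P⟩ := exists_par hp1
  refine not_approxSemiAmenable (ι := Fin 3) (mu b p 0 0) (kap b p) ?_ ?_
    ![shf P b id, shf P b s1, shf P b s2]
    ![frm P id Function.injective_id, (-1 / 2 : ℂ) • frm P s1 s1_inj,
      (-1 / 2 : ℂ) • frm P s2 s2_inj] ?_ ?_ ?_
  · intro x
    rw [kap_apply, kap_apply]
    have : (x * mu b p 0 0).op (b 0) = x.op ((mu b p 0 0).op (b 0)) := rfl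
    rw [this, mu_zero_apply]
  · rw [kap_apply, mu_zero_apply, inner_basis b, if_pos rfl]
    exact one_ne_zero
  · intro j x y z
    fin_cases j
    · exact frm_bal P id Function.injective_id x y z
    · exact congrArg (fun t => (-1 / 2 : ℂ) • t) (frm_bal P s1 s1_inj x y z)
    · exact congrArg (fun t => (-1 / 2 : ℂ) • t) (frm_bal P s2 s2_inj x y z)
  · intro x
    rw [Fin.sum_univ_three]
    change frm P id Function.injective_id (shf P b id) x +
      (-1 / 2 : ℂ) * frm P s1 s1_inj (shf P b s1) x +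
      (-1 / 2 : ℂ) * frm P s2 s2_inj (shf P b s2) x = 0
    rw [frm_shf_left, frm_shf_left, frm_shf_left]
    ring
  · intro x
    rw [Fin.sum_univ_three]
    change frm P id Function.injective_id x (shf P b id) +
      (-1 / 2 : ℂ) * frm P s1 s1_inj x (shf P b s1) +
      (-1 / 2 : ℂ) * frm P s2 s2_inj x (shf P b s2) = kap b p x
    rw [frm_shf_right, frm_shf_right, frm_shf_right, kap_apply]
    simp only [id_eq]
    rw [tree_sum (summable_tw P x), tw_zero, ← tsum_mul_left, ← tsum_mul_left]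
    have e1 : ∀ m, (tw (2 * m + 1) : ℂ) * ⟪b (2 * m + 1), x.op (b (2 * m + 1))⟫_ℂ =
        -(-1 / 2 * ((tw m : ℂ) * ⟪b (s1 m), x.op (b (s1 m))⟫_ℂ)) := by
      intro m
      rw [tw_odd]
      unfold s1
      push_cast
      ring
    have e2 : ∀ m, (tw (2 * m + 2) : ℂ) * ⟪b (2 * m + 2), x.op (b (2 * m + 2))⟫_ℂ =
        -(-1 / 2 * ((tw m : ℂ) * ⟪b (s2 m), x.op (b (s2 m))⟫_ℂ)) := by
      intro m
      rw [tw_even]
      unfold s2
      push_cast
      ring
    simp_rw [e1, e2]
    rw [tsum_neg, tsum_neg]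
    push_cast
    ring

end Pool.Agent.Q193.SA
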