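import Mathlib

set_option autoImplicit false

/-!
Approximate semi-amenability of Banach algebras, and an obstruction to it.
-/

open Filter Topology

namespace Pool.Agent.Q193.SA

universe u v

/-- A Banach bimodule structure over the Banach algebra `A` on the Banach space `X`:
jointly bounded bilinear actions `a · x = L a x` and `x · a = R a x` with
`(ab)·x = a·(b·x)`, `x·(ab) = (x·a)·b` and `a·(x·b) = (a·x)·b`. -/
structure Bimodule (A : Type u) (X : Type v) [NonUnitalNormedRing A] [NormedSpace ℂ A]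
    [NormedAddCommGroup X] [NormedSpace ℂ X] where
  /-- the left action `a · x` -/
  L : A →L[ℂ] X →L[ℂ] X
  /-- the right action `x · a` -/
  R : A →L[ℂ] X →L[ℂ] X
  L_mul : ∀ (a b : A) (x : X), L (a * b) x = L a (L b x)
  R_mul : ∀ (a b : A) (x : X), R (a * b) x = R b (R a x)
  comm : ∀ (a b : A) (x : X), L a (R b x) = R b (L a x)

variable {A : Type u} {X : Type v} [NonUnitalNormedRing A] [NormedSpace ℂ A]
    [NormedAddCommGroup X] [NormedSpace ℂ X]

/-- The left action of `A` on the dual space `X*`: `(a · φ)(x) = φ (x · a)`. -/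
noncomputable def Bimodule.dualL (M : Bimodule A X) (a : A) (φ : X →L[ℂ] ℂ) : X →L[ℂ] ℂ :=
  φ.comp (M.R a)

/-- The right action of `A` on the dual space `X*`: `(φ · a)(x) = φ (a · x)`. -/
noncomputable def Bimodule.dualR (M : Bimodule A X) (a : A) (φ : X →L[ℂ] ℂ) : X →L[ℂ] ℂ :=
  φ.comp (M.L a)

/-- `D : A → X*` is a derivation: `D(ab) = a · D(b) + D(a) · b`. -/
def Bimodule.IsDerivation (M : Bimodule A X) (D : A →L[ℂ] (X →L[ℂ] ℂ)) : Prop :=
  ∀ a b : A, D (a * b) = M.dualL a (D b) + M.dualR b (D a)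

/-- `D : A → X*` is approximately semi-inner: there are nets `ξ, η` in `X*` (given here as
functions on a type with a proper filter) with `D a = lim (a · ξ_i - η_i · a)` in the norm of `X*`,
for every `a`. -/
def Bimodule.ApproxSemiInner (M : Bimodule A X) (D : A →L[ℂ] (X →L[ℂ] ℂ)) : Prop :=
  ∃ (ι : Type u) (l : Filter ι) (_ : l.NeBot) (ξ η : ι → (X →L[ℂ] ℂ)),
    ∀ a : A, Tendsto (fun i => M.dualL a (ξ i) - M.dualR a (η i)) l (𝓝 (D a))

/-- The Banach algebra `A` is approximately semi-amenable: every continuous derivation from `A`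
into the dual `X*` of a Banach `A`-bimodule `X` is approximately semi-inner. -/
def ApproxSemiAmenable (A : Type u) [NonUnitalNormedRing A] [NormedSpace ℂ A] : Prop :=
  ∀ (X : Type u) [NormedAddCommGroup X] [NormedSpace ℂ X] [CompleteSpace X] (M : Bimodule A X)
    (D : A →L[ℂ] (X →L[ℂ] ℂ)), M.IsDerivation D → M.ApproxSemiInner D

end Pool.Agent.Q193.SA
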