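import Pool.Agent.Helper526.Sch.Units

set_option autoImplicit false
set_option linter.unusedSectionVars false
open scoped InnerProductSpace ENNReal NNReal Topology
open Pool.Agent.Helper526.Sch

/-!
The Schatten norm is a norm, dominates the operator norm and has the ideal property.
-/

namespace Pool.Agent.Q193.SA

universe u v w w'

variable {ι : Type v} {κ : Type w} {H : Type u} [NormedAddCommGroup H]
  [InnerProductSpace ℂ H] [CompleteSpace H]

lemma sn_nonneg (b : HilbertBasis ι ℂ H) (p : ℝ) (X : H →L[ℂ] H) : 0 ≤ schattenNorm b p X :=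
  Real.rpow_nonneg ENNReal.toReal_nonneg _

lemma sn_rpow (b : HilbertBasis ι ℂ H) {p : ℝ} (hp : 0 < p) (X : H →L[ℂ] H) :
    schattenNorm b p X ^ p = (trAbsPow b p X).toReal := by
  unfold schattenNorm
  rw [← Real.rpow_mul ENNReal.toReal_nonneg, one_div, inv_mul_cancel₀ hp.ne', Real.rpow_one]

lemma trAbsPow_eq_ofReal (b : HilbertBasis ι ℂ H) {p : ℝ} (hp : 0 < p) {X : H →L[ℂ] H}
    (hf : trAbsPow b p X < ∞) : trAbsPow b p X = ENNReal.ofReal (schattenNorm b p X ^ p) := by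
  rw [sn_rpow b hp, ENNReal.ofReal_toReal hf.ne]

lemma sn_le_of (b : HilbertBasis ι ℂ H) {p : ℝ} (hp : 0 < p) {X : H →L[ℂ] H} {C : ℝ} (hC : 0 ≤ C)
    (h : trAbsPow b p X ≤ ENNReal.ofReal (C ^ p)) : schattenNorm b p X ≤ C := by
  unfold schattenNorm
  have h1 : (trAbsPow b p X).toReal ≤ C ^ p :=
    ENNReal.toReal_le_of_le_ofReal (Real.rpow_nonneg hC p) h
  calc (trAbsPow b p X).toReal ^ (1 / p) ≤ (C ^ p) ^ (1 / p) := by gcongr
    _ = C := by rw [← Real.rpow_mul hC, mul_one_div_cancel hp.ne', Real.rpow_one]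

lemma sum_le_sn (b : HilbertBasis ι ℂ H) {X : H →L[ℂ] H} (hX : IsCompactOperator (star X * X))
    {p : ℝ} (hp : 1 ≤ p) (hf : trAbsPow b p X < ∞) {α : Type*} [Fintype α]
    {e f : α → H} (he : Orthonormal ℂ e) (hf' : Orthonormal ℂ f) :
    ∑ i, ‖⟪f i, X (e i)⟫_ℂ‖ ^ p ≤ schattenNorm b p X ^ p :=
  sum_le_real b hX hp (Real.rpow_nonneg (sn_nonneg b p X) p)
    (trAbsPow_eq_ofReal b (by linarith) hf).le he hf'

/-- The converse bound: the Schatten norm is attained by finite orthonormal systems. -/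
lemma trAbsPow_le_of_forall (b : HilbertBasis ι ℂ H) {X : H →L[ℂ] H}
    (hX : IsCompactOperator (star X * X)) {p : ℝ} (hp : 0 < p) {C : ℝ}
    (h : ∀ (α : Type u) [Fintype α] (e f : α → H), Orthonormal ℂ e → Orthonormal ℂ f →
      ∑ i, ‖⟪f i, X (e i)⟫_ℂ‖ ^ p ≤ C) : trAbsPow b p X ≤ ENNReal.ofReal C := by
  classical
  obtain ⟨κ, v, lam, hv⟩ := exists_eigenbasis' hX
  have hlam : ∀ k, lam k = ‖X (v k)‖ ^ 2 := eigen_nonneg v hv
  rw [trAbsPow_eq b v hv hp, ENNReal.tsum_eq_iSup_sum]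
  refine iSup_le fun s => ?_
  have h1 : ∑ k ∈ s, ENNReal.ofReal (lam k ^ (p / 2)) =
      ∑ k ∈ s with X (v k) ≠ 0, ENNReal.ofReal (lam k ^ (p / 2)) := by
    symm
    apply Finset.sum_filter_of_ne
    intro k hk hne h0
    apply hne
    rw [hlam, h0, norm_zero, zero_pow two_ne_zero, Real.zero_rpow (by positivity),
      ENNReal.ofReal_zero]
  rw [h1, ← ENNReal.ofReal_sum_of_nonneg (fun k _ => Real.rpow_nonneg (by rw [hlam]; positivity) _)]
  apply ENNReal.ofReal_le_ofReal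
  set t := s.filter (fun k => X (v k) ≠ 0) with ht
  have hne : ∀ k : t, ‖X (v k)‖ ≠ 0 := by
    intro k
    have := (Finset.mem_filter.1 k.2).2
    simpa using this
  have hXX : ∀ k l, ⟪X (v k), X (v l)⟫_ℂ = (lam l : ℂ) * ⟪v k, v l⟫_ℂ := by
    intro k l
    rw [← inner_star_right]
    have : (star X) (X (v l)) = (star X * X) (v l) := rfl
    rw [this, hv l, inner_smul_right]
  have hf : Orthonormal ℂ (fun k : t => ((‖X (v k)‖⁻¹ : ℝ) : ℂ) • X (v k)) := by
    refine ⟨fun k => ?_, fun k l hkl => ?_⟩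
    · rw [norm_smul, Complex.norm_real, norm_inv, norm_norm, inv_mul_cancel₀ (hne k)]
    · have hkl' : (k : κ) ≠ l := fun h => hkl (Subtype.ext h)
      change ⟪((‖X (v k)‖⁻¹ : ℝ) : ℂ) • X (v k), ((‖X (v l)‖⁻¹ : ℝ) : ℂ) • X (v l)⟫_ℂ = 0
      rw [inner_smul_left, inner_smul_right, hXX, v.orthonormal.2 hkl']
      simp
  have key := h t (fun k => v k) _ (v.orthonormal.comp _ Subtype.val_injective) hf
  refine le_trans (le_of_eq ?_) key
  rw [← Finset.sum_coe_sort t]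
  refine Finset.sum_congr rfl fun k _ => ?_
  have h2 : ⟪((‖X (v k)‖⁻¹ : ℝ) : ℂ) • X (v k), X (v k)⟫_ℂ = ((‖X (v k)‖ : ℝ) : ℂ) := by
    rw [inner_smul_left, inner_self_eq_norm_sq_to_K, Complex.conj_ofReal]
    have := hne k
    have hne' : ((‖X (v k)‖ : ℝ) : ℂ) ≠ 0 := by exact_mod_cast this
    push_cast
    field_simp
    rfl
  rw [h2, Complex.norm_real, norm_norm, hlam, rpow_two_mul_half (norm_nonneg _)]

lemma sn_add_le (b : HilbertBasis ι ℂ H) {X Y : H →L[ℂ] H} (hX : IsCompactOperator X)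
    (hY : IsCompactOperator Y) {p : ℝ} (hp : 1 ≤ p) (hXf : trAbsPow b p X < ∞)
    (hYf : trAbsPow b p Y < ∞) :
    schattenNorm b p (X + Y) ≤ schattenNorm b p X + schattenNorm b p Y := by
  have hp0 : 0 < p := by linarith
  have h0X := sn_nonneg b p X
  have h0Y := sn_nonneg b p Y
  refine sn_le_of b hp0 (by positivity) ?_
  refine trAbsPow_le_of_forall b (Cpt.of_compact (hX.add hY)).1 hp0 ?_
  intro α _ e f he hf
  have hA := sum_le_sn b (Cpt.of_compact hX).1 hp hXf he hf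
  have hB := sum_le_sn b (Cpt.of_compact hY).1 hp hYf he hf
  have hM := Real.Lp_add_le_of_nonneg (s := Finset.univ) (f := fun i => ‖⟪f i, X (e i)⟫_ℂ‖)
    (g := fun i => ‖⟪f i, Y (e i)⟫_ℂ‖) hp (fun i _ => norm_nonneg _) (fun i _ => norm_nonneg _)
  have hroot : ∀ t s : ℝ, 0 ≤ t → 0 ≤ s → t ≤ s ^ p → t ^ (1 / p) ≤ s := by
    intro t s ht hs hts
    calc t ^ (1 / p) ≤ (s ^ p) ^ (1 / p) := by gcongr
      _ = s := by rw [← Real.rpow_mul hs, mul_one_div_cancel hp0.ne', Real.rpow_one]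
  have h1 := hroot _ _ (Finset.sum_nonneg fun i _ => by positivity) h0X hA
  have h2 := hroot _ _ (Finset.sum_nonneg fun i _ => by positivity) h0Y hB
  have hS : 0 ≤ ∑ i, (‖⟪f i, X (e i)⟫_ℂ‖ + ‖⟪f i, Y (e i)⟫_ℂ‖) ^ p :=
    Finset.sum_nonneg fun i _ => by positivity
  calc ∑ i, ‖⟪f i, (X + Y) (e i)⟫_ℂ‖ ^ p
      ≤ ∑ i, (‖⟪f i, X (e i)⟫_ℂ‖ + ‖⟪f i, Y (e i)⟫_ℂ‖) ^ p := by
        refine Finset.sum_le_sum fun i _ => ?_
        gcongr
        rw [FunLike.coe_add, Pi.add_apply, inner_add_right]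
        exact norm_add_le _ _
    _ = ((∑ i, (‖⟪f i, X (e i)⟫_ℂ‖ + ‖⟪f i, Y (e i)⟫_ℂ‖) ^ p) ^ (1 / p)) ^ p := by
        rw [← Real.rpow_mul hS, one_div, inv_mul_cancel₀ hp0.ne', Real.rpow_one]
    _ ≤ (schattenNorm b p X + schattenNorm b p Y) ^ p := by
        gcongr
        exact hM.trans (add_le_add h1 h2)

lemma opNorm_le_sn (b : HilbertBasis ι ℂ H) {X : H →L[ℂ] H} (hX : IsCompactOperator (star X * X))
    {p : ℝ} (hp : 1 ≤ p) (hXf : trAbsPow b p X < ∞) : ‖X‖ ≤ schattenNorm b p X := by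
  have hp0 : 0 < p := by linarith
  refine ContinuousLinearMap.opNorm_le_of_unit_norm (sn_nonneg b p X) fun x hx => ?_
  by_cases h0 : X x = 0
  · rw [h0, norm_zero]; exact sn_nonneg b p X
  have hn : 0 < ‖X x‖ := norm_pos_iff.2 h0
  set f : H := ((‖X x‖⁻¹ : ℝ) : ℂ) • X x with hf
  have hf1 : ‖f‖ = 1 := by
    rw [hf, norm_smul, Complex.norm_real, norm_inv, norm_norm]
    field_simp
  have h1 : Orthonormal ℂ (fun _ : Unit => x) :=
    ⟨fun _ => hx, fun i j hij => (hij (Subsingleton.elim i j)).elim⟩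
  have h2 : Orthonormal ℂ (fun _ : Unit => f) :=
    ⟨fun _ => hf1, fun i j hij => (hij (Subsingleton.elim i j)).elim⟩
  have h := sum_le_sn b hX hp hXf h1 h2
  simp only [Finset.univ_unique, Finset.sum_const, Finset.card_singleton, one_smul] at h
  have h3 : ⟪f, X x⟫_ℂ = ((‖X x‖ : ℝ) : ℂ) := by
    rw [hf, inner_smul_left, inner_self_eq_norm_sq_to_K, Complex.conj_ofReal]
    have hne : ((‖X x‖ : ℝ) : ℂ) ≠ 0 := by exact_mod_cast hn.ne'
    push_cast
    field_simp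
    rfl
  rw [h3, Complex.norm_real, norm_norm] at h
  exact (Real.rpow_le_rpow_iff hn.le (sn_nonneg b p X) hp0).1 h

lemma tsum_norm_mul_le (g : κ → H) (X Y : H →L[ℂ] H) {p : ℝ} (hp : 0 < p) :
    ∑' i, ENNReal.ofReal (‖(X * Y) (g i)‖ ^ p) ≤
      ENNReal.ofReal (‖X‖ ^ p) * ∑' i, ENNReal.ofReal (‖Y (g i)‖ ^ p) := by
  rw [← ENNReal.tsum_mul_left]
  refine ENNReal.tsum_le_tsum fun i => ?_
  rw [← ENNReal.ofReal_mul (by positivity), ← Real.mul_rpow (norm_nonneg _) (norm_nonneg _)]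
  apply ENNReal.ofReal_le_ofReal
  gcongr
  exact X.le_opNorm (Y (g i))

lemma trAbsPow_mul_le (b : HilbertBasis ι ℂ H) (X : H →L[ℂ] H) {Y : H →L[ℂ] H}
    (hY : IsCompactOperator Y) {p : ℝ} (hp : 0 < p) :
    trAbsPow b p (X * Y) ≤ ENNReal.ofReal (‖X‖ ^ p) * trAbsPow b p Y := by
  have hXY : IsCompactOperator (X * Y) := hY.clm_comp X
  rcases le_total 2 p with h2 | h2
  · obtain ⟨κ, v, lam, hv⟩ := exists_eigenbasis' (Cpt.of_compact hXY).1
    have hlam := eigen_nonneg v hv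
    rw [trAbsPow_eq b v hv hp]
    calc ∑' k, ENNReal.ofReal (lam k ^ (p / 2)) = ∑' k, ENNReal.ofReal (‖(X * Y) (v k)‖ ^ p) := by
          congr 1
          funext k
          rw [hlam, rpow_two_mul_half (norm_nonneg _)]
      _ ≤ ENNReal.ofReal (‖X‖ ^ p) * ∑' i, ENNReal.ofReal (‖Y (v i)‖ ^ p) :=
          tsum_norm_mul_le v X Y hp
      _ ≤ _ := by
          gcongr
          exact sum_norm_le b v (Cpt.of_compact hY).1 h2
  · obtain ⟨κ, v, lam, hv⟩ := exists_eigenbasis' (Cpt.of_compact hY).1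
    have hlam := eigen_nonneg v hv
    rw [trAbsPow_eq b v hv hp (X := Y)]
    calc trAbsPow b p (X * Y) ≤ ∑' k, ENNReal.ofReal (‖(X * Y) (v k)‖ ^ p) :=
          le_sum_norm b v (Cpt.of_compact hXY).1 hp h2
      _ ≤ ENNReal.ofReal (‖X‖ ^ p) * ∑' i, ENNReal.ofReal (‖Y (v i)‖ ^ p) :=
          tsum_norm_mul_le v X Y hp
      _ = _ := by
          congr 2
          funext k
          rw [hlam, rpow_two_mul_half (norm_nonneg _)]

lemma trAbsPow_mul_lt_top (b : HilbertBasis ι ℂ H) (X : H →L[ℂ] H) {Y : H →L[ℂ] H}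
    (hY : IsCompactOperator Y) {p : ℝ} (hp : 0 < p) (hYf : trAbsPow b p Y < ∞) :
    trAbsPow b p (X * Y) < ∞ :=
  (trAbsPow_mul_le b X hY hp).trans_lt (ENNReal.mul_lt_top ENNReal.ofReal_lt_top hYf)

lemma sn_mul_le (b : HilbertBasis ι ℂ H) (X : H →L[ℂ] H) {Y : H →L[ℂ] H}
    (hY : IsCompactOperator Y) {p : ℝ} (hp : 0 < p) (hYf : trAbsPow b p Y < ∞) :
    schattenNorm b p (X * Y) ≤ ‖X‖ * schattenNorm b p Y := by
  have h0 := sn_nonneg b p Y
  refine sn_le_of b hp (by positivity) ?_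
  rw [Real.mul_rpow (norm_nonneg _) h0, ENNReal.ofReal_mul (by positivity),
    ← trAbsPow_eq_ofReal b hp hYf]
  exact trAbsPow_mul_le b X hY hp

lemma sn_star (b : HilbertBasis ι ℂ H) {X : H →L[ℂ] H} (hX : IsCompactOperator X) {p : ℝ}
    (hp : 0 < p) : schattenNorm b p (star X) = schattenNorm b p X := by
  unfold schattenNorm
  rw [trAbsPow_star b (Cpt.of_compact hX) hp]

lemma sn_smul (b : HilbertBasis ι ℂ H) {X : H →L[ℂ] H} (hX : IsCompactOperator X) {p : ℝ}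
    (hp : 0 < p) (c : ℂ) : schattenNorm b p (c • X) = ‖c‖ * schattenNorm b p X := by
  unfold schattenNorm
  rw [trAbsPow_smul b (Cpt.of_compact hX).1 hp, ENNReal.toReal_mul,
    ENNReal.toReal_ofReal (by positivity), Real.mul_rpow (by positivity) ENNReal.toReal_nonneg,
    ← Real.rpow_mul (norm_nonneg _), mul_one_div_cancel hp.ne', Real.rpow_one]

lemma sn_zero (b : HilbertBasis ι ℂ H) {p : ℝ} (hp : 0 < p) :
    schattenNorm b p (0 : H →L[ℂ] H) = 0 := by
  unfold schattenNorm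
  rw [trAbsPow_zero b hp, ENNReal.toReal_zero, Real.zero_rpow (by positivity)]

/-- the adjoint of a compact operator is compact -/
lemma compact_star {a : H →L[ℂ] H} (ha : IsCompactOperator a) :
    IsCompactOperator (star a : H →L[ℂ] H) := by
  have h1 : IsCompactOperator (a * star a) := ha.comp_clm (star a)
  have h2 := (isCompactOperator_iff_isCompact_closure_image_ball
    ((a * star a : H →L[ℂ] H) : H →ₗ[ℂ] H) one_pos).1 h1
  have h3 : TotallyBounded ((a * star a : H →L[ℂ] H) '' Metric.ball 0 1) :=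
    h2.totallyBounded.subset subset_closure
  refine (isCompactOperator_iff_isCompact_closure_image_ball
    ((star a : H →L[ℂ] H) : H →ₗ[ℂ] H) one_pos).2 ?_
  rw [isCompact_iff_totallyBounded_isComplete]
  refine ⟨?_, isClosed_closure.isComplete⟩
  apply TotallyBounded.closure
  rw [Metric.totallyBounded_iff]
  intro ε hε
  rw [totallyBounded_iff_subset] at h3
  obtain ⟨t, hts, htf, hcov⟩ := h3 {q | dist q.1 q.2 < ε ^ 2 / 2}
    (Metric.dist_mem_uniformity (by positivity))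
  choose g hg hg2 using hts
  have : Fintype t := htf.fintype
  refine ⟨Set.range (fun y : t => (star a) (g y.2)), Set.finite_range _, ?_⟩
  rintro _ ⟨x, hx, rfl⟩
  have hx2 := hcov ⟨x, hx, rfl⟩
  simp only [Set.mem_iUnion] at hx2
  obtain ⟨y, hy, hxy⟩ := hx2
  simp only [Set.mem_iUnion]
  refine ⟨_, ⟨⟨y, hy⟩, rfl⟩, ?_⟩
  have hxy' : dist ((a * star a) x) y < ε ^ 2 / 2 := hxy
  rw [← hg2 hy, dist_eq_norm, ← map_sub] at hxy'
  change dist ((star a) x) ((star a) (g hy)) < ε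
  rw [dist_eq_norm, ← map_sub]
  set z := x - g hy with hz
  have hz1 : ‖z‖ < 2 := by
    have e1 : ‖x‖ < 1 := by simpa using hx
    have e2 : ‖g hy‖ < 1 := by simpa using hg hy
    calc ‖z‖ ≤ ‖x‖ + ‖g hy‖ := norm_sub_le _ _
      _ < 2 := by linarith
  have h4 : ‖(star a) z‖ ^ 2 ≤ ‖(a * star a) z‖ * ‖z‖ := by
    have e3 : ⟪(a * star a) z, z⟫_ℂ = (((‖(star a) z‖ ^ 2 : ℝ)) : ℂ) := by
      have : (a * star a) z = a ((star a) z) := rfl
      rw [this, ← inner_star_right, inner_self_eq_norm_sq_to_K]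
      push_cast
      rfl
    have e4 := norm_inner_le_norm (𝕜 := ℂ) ((a * star a) z) z
    rw [e3, Complex.norm_real, Real.norm_of_nonneg (by positivity)] at e4
    exact e4
  have h5 : ‖(star a) z‖ ^ 2 < ε ^ 2 := by
    have : ‖(a * star a) z‖ * ‖z‖ < ε ^ 2 := by
      have h6 : ‖(a * star a) z‖ * ‖z‖ ≤ ‖(a * star a) z‖ * 2 := by gcongr
      linarith
    linarith
  exact lt_of_pow_lt_pow_left₀ 2 hε.le h5

end Pool.Agent.Q193.SA
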