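import Pool.Agent.Q193.SA.Alg
import Pool.Agent.Q193.SA.Defs

set_option autoImplicit false
set_option linter.unusedSectionVars false
open scoped InnerProductSpace ENNReal NNReal Topology
open Pool.Agent.Helper526.Sch Filter

/-!
`𝔖_1(H)` is approximately semi-amenable.
-/

namespace Pool.Agent.Q193.SA

universe u v w w'

variable {H : Type u} [NormedAddCommGroup H] [InnerProductSpace ℂ H] [CompleteSpace H]

/-! rank one operators in `𝔖_1` -/

/-- the rank one operator `z ↦ ⟪y, z⟫ x` -/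
noncomputable def rkop (x y : H) : H →L[ℂ] H := (innerSL ℂ y).smulRight x

lemma rkop_apply (x y z : H) : rkop x y z = ⟪y, z⟫_ℂ • x := by simp [rkop]

lemma rkop_compact (x y : H) : IsCompactOperator (rkop x y) := by
  have h1 : IsCompactOperator (innerSL ℂ y) :=
    isCompactOperator_of_locallyCompactSpace_dom (innerSL ℂ y)
  have h2 := h1.clm_comp (ContinuousLinearMap.toSpanSingleton ℂ x)
  have h3 : (rkop x y : H → H) =
      (ContinuousLinearMap.toSpanSingleton ℂ x) ∘ (innerSL ℂ y) := by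
    funext z
    simp [rkop_apply]
  rw [h3]
  exact h2

lemma rkop_tr (b : HilbertBasis ℕ ℂ H) (x y : H) :
    trAbsPow b 1 (rkop x y) ≤ ENNReal.ofReal ((‖x‖ * ‖y‖) ^ (1 : ℝ)) := by
  refine trAbsPow_le_of_forall b (Cpt.of_compact (rkop_compact x y)).1 one_pos ?_
  intro α _ e f he hf
  rw [Real.rpow_one]
  have h1 : ∀ i, ‖⟪f i, rkop x y (e i)⟫_ℂ‖ ^ (1 : ℝ) = ‖⟪f i, x⟫_ℂ‖ * ‖⟪e i, y⟫_ℂ‖ := by
    intro i
    rw [Real.rpow_one, rkop_apply, inner_smul_right, norm_mul, mul_comm, ← inner_conj_symm (e i) y,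
      RCLike.norm_conj]
  simp_rw [h1]
  have h2 := Finset.sum_mul_sq_le_sq_mul_sq Finset.univ (fun i => ‖⟪f i, x⟫_ℂ‖)
    (fun i => ‖⟪e i, y⟫_ℂ‖)
  have h3 := hf.sum_inner_products_le (s := Finset.univ) x
  have h4 := he.sum_inner_products_le (s := Finset.univ) y
  have h5 : (∑ i, ‖⟪f i, x⟫_ℂ‖ * ‖⟪e i, y⟫_ℂ‖) ^ 2 ≤ (‖x‖ * ‖y‖) ^ 2 := by
    rw [mul_pow]
    refine h2.trans (mul_le_mul h3 h4 (Finset.sum_nonneg fun i _ => by positivity) (by positivity))
  exact (pow_le_pow_iff_left₀ (Finset.sum_nonneg fun i _ => by positivity) (by positivity)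
    two_ne_zero).1 h5

variable {b : HilbertBasis ℕ ℂ H}

instance fact11 : Fact ((1 : ℝ) ≤ 1) := ⟨le_rfl⟩

/-- the rank one operator as an element of `𝔖_1` -/
noncomputable def rk (b : HilbertBasis ℕ ℂ H) (x y : H) : SchattenAlg b 1 :=
  ⟨rkop x y, rkop_compact x y, (rkop_tr b x y).trans_lt ENNReal.ofReal_lt_top⟩

lemma rk_op (x y z : H) : (rk b x y).op z = ⟪y, z⟫_ℂ • x := rkop_apply x y z

lemma norm_rk (x y : H) : ‖rk b x y‖ ≤ ‖x‖ * ‖y‖ :=
  sn_le_of b one_pos (by positivity) (rkop_tr b x y)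

lemma ext_op {x y : SchattenAlg b 1} (h : ∀ z, x.op z = y.op z) : x = y :=
  SchattenAlg.op_injective (ContinuousLinearMap.ext h)

lemma rk_add_left (x x' y : H) : rk b (x + x') y = rk b x y + rk b x' y :=
  ext_op fun z => by
    rw [SchattenAlg.op_add, FunLike.coe_add, Pi.add_apply, rk_op, rk_op, rk_op, smul_add]

lemma rk_smul_left (c : ℂ) (x y : H) : rk b (c • x) y = c • rk b x y :=
  ext_op fun z => by
    rw [SchattenAlg.op_smul, FunLike.coe_smul, Pi.smul_apply, rk_op, rk_op, smul_comm]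

lemma rk_add_right (x y y' : H) : rk b x (y + y') = rk b x y + rk b x y' :=
  ext_op fun z => by
    rw [SchattenAlg.op_add, FunLike.coe_add, Pi.add_apply, rk_op, rk_op, rk_op, inner_add_left,
      add_smul]

lemma rk_smul_right (c : ℂ) (x y : H) : rk b x (c • y) = (starRingEnd ℂ c) • rk b x y :=
  ext_op fun z => by
    rw [SchattenAlg.op_smul, FunLike.coe_smul, Pi.smul_apply, rk_op, rk_op, inner_smul_left,
      mul_smul]

lemma rk_zero_right (x : H) : rk b x 0 = 0 :=
  ext_op fun z => by rw [rk_op, inner_zero_left, zero_smul]; rfl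

lemma rk_zero_left (y : H) : rk b 0 y = 0 :=
  ext_op fun z => by rw [rk_op, smul_zero]; rfl

lemma mul_rk (a : SchattenAlg b 1) (x y : H) : a * rk b x y = rk b (a.op x) y :=
  ext_op fun z => by
    have : (a * rk b x y).op z = a.op ((rk b x y).op z) := rfl
    rw [this, rk_op, rk_op, map_smul]

lemma rk_mul (a : SchattenAlg b 1) (x y : H) : rk b x y * a = rk b x ((star a.op) y) :=
  ext_op fun z => by
    have : (rk b x y * a).op z = (rk b x y).op (a.op z) := rfl
    rw [this, rk_op, rk_op, inner_star_left]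

/-- `y ↦ rk x y` as an additive homomorphism -/
noncomputable def rkHom (b : HilbertBasis ℕ ℂ H) (x : H) : H →+ SchattenAlg b 1 where
  toFun := rk b x
  map_zero' := rk_zero_right x
  map_add' := rk_add_right x

lemma rkHom_continuous (x : H) : Continuous (rkHom b x) :=
  AddMonoidHomClass.continuous_of_bound (rkHom b x) ‖x‖ (fun y => norm_rk x y)

/-! the identity `∑ ‖c v_k‖ = ‖c‖_1` -/

lemma exists_svd (c : SchattenAlg b 1) : ∃ (κ : Type u) (v : HilbertBasis κ ℂ H),
    HasSum (fun k => ‖c.op (v k)‖) ‖c‖ := by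
  obtain ⟨κ, v, lam, hv⟩ := exists_eigenbasis' (Cpt.of_compact c.compact).1
  have hlam := eigen_nonneg v hv
  refine ⟨κ, v, ?_⟩
  have h1 : trAbsPow b 1 c.op = ∑' k, ENNReal.ofReal ‖c.op (v k)‖ := by
    rw [trAbsPow_eq b v hv one_pos]
    congr 1
    funext k
    rw [hlam, rpow_two_mul_half (norm_nonneg _), Real.rpow_one]
  have h2 : ∑' k, ENNReal.ofReal ‖c.op (v k)‖ ≠ ∞ := by rw [← h1]; exact c.fin.ne
  have h3 : Summable fun k => ‖c.op (v k)‖ := by
    refine (ENNReal.summable_toReal h2).congr fun k => ?_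
    rw [ENNReal.toReal_ofReal (norm_nonneg _)]
  have h4 : ‖c‖ = ∑' k, ‖c.op (v k)‖ := by
    rw [SchattenAlg.norm_def]
    unfold schattenNorm
    rw [h1, ← ENNReal.ofReal_tsum_of_nonneg (fun k => norm_nonneg _) h3,
      ENNReal.toReal_ofReal (tsum_nonneg fun k => norm_nonneg _), div_one, Real.rpow_one]
  rw [h4]
  exact h3.hasSum

/-! bounded sesquilinear maps and the projective norm -/

section Der

variable {X : Type u} [NormedAddCommGroup X] [NormedSpace ℂ X]
  (M : Bimodule (SchattenAlg b 1) X) (D : SchattenAlg b 1 →L[ℂ] (X →L[ℂ] ℂ))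

lemma dualL_add (a a' : SchattenAlg b 1) (φ : X →L[ℂ] ℂ) :
    M.dualL (a + a') φ = M.dualL a φ + M.dualL a' φ := by
  ext x; simp [Bimodule.dualL]

lemma dualL_add' (a : SchattenAlg b 1) (φ ψ : X →L[ℂ] ℂ) :
    M.dualL a (φ + ψ) = M.dualL a φ + M.dualL a ψ := by
  ext x; simp [Bimodule.dualL]

lemma dualL_sub' (a : SchattenAlg b 1) (φ ψ : X →L[ℂ] ℂ) :
    M.dualL a (φ - ψ) = M.dualL a φ - M.dualL a ψ := by
  ext x; simp [Bimodule.dualL]

lemma dualL_smul (t : ℂ) (a : SchattenAlg b 1) (φ : X →L[ℂ] ℂ) :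
    M.dualL (t • a) φ = t • M.dualL a φ := by
  ext x; simp [Bimodule.dualL]

lemma dualL_smul' (t : ℂ) (a : SchattenAlg b 1) (φ : X →L[ℂ] ℂ) :
    M.dualL a (t • φ) = t • M.dualL a φ := by
  ext x; simp [Bimodule.dualL]

lemma dualL_mul (a a' : SchattenAlg b 1) (φ : X →L[ℂ] ℂ) :
    M.dualL (a * a') φ = M.dualL a (M.dualL a' φ) := by
  ext x
  simp only [Bimodule.dualL, ContinuousLinearMap.comp_apply]
  rw [M.R_mul]

lemma dual_comm (a a' : SchattenAlg b 1) (φ : X →L[ℂ] ℂ) :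
    M.dualR a (M.dualL a' φ) = M.dualL a' (M.dualR a φ) := by
  ext x
  simp only [Bimodule.dualL, Bimodule.dualR, ContinuousLinearMap.comp_apply]
  rw [M.comm]

lemma norm_dualL (a : SchattenAlg b 1) (φ : X →L[ℂ] ℂ) :
    ‖M.dualL a φ‖ ≤ ‖M.R‖ * ‖a‖ * ‖φ‖ := by
  unfold Bimodule.dualL
  calc ‖φ.comp (M.R a)‖ ≤ ‖φ‖ * ‖M.R a‖ := φ.opNorm_comp_le _
    _ ≤ ‖φ‖ * (‖M.R‖ * ‖a‖) := by gcongr; exact M.R.le_opNorm a
    _ = _ := by ring

/-- `β(x, y) = (x ⊗ b₀*) · D(b₀ ⊗ y*)` -/
noncomputable def bet (x y : H) : X →L[ℂ] ℂ := M.dualL (rk b x (b 0)) (D (rk b (b 0) y))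

lemma bet_add_left (x x' y : H) : bet M D (x + x') y = bet M D x y + bet M D x' y := by
  unfold bet
  rw [rk_add_left, dualL_add]

lemma bet_smul_left (t : ℂ) (x y : H) : bet M D (t • x) y = t • bet M D x y := by
  unfold bet
  rw [rk_smul_left, dualL_smul]

lemma bet_smul_right (t : ℂ) (x y : H) : bet M D x (t • y) = (starRingEnd ℂ t) • bet M D x y := by
  unfold bet
  rw [rk_smul_right, map_smul, dualL_smul']

lemma bet_zero_left (y : H) : bet M D 0 y = 0 := by
  unfold bet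
  rw [rk_zero_left]
  ext x
  simp [Bimodule.dualL]

lemma bet_sum_left {α : Type*} (s : Finset α) (f : α → H) (y : H) :
    bet M D (∑ i ∈ s, f i) y = ∑ i ∈ s, bet M D (f i) y := by
  classical
  induction s using Finset.induction_on with
  | empty => simp [bet_zero_left]
  | insert a s ha ih => rw [Finset.sum_insert ha, Finset.sum_insert ha, bet_add_left, ih]

lemma norm_bet (x y : H) : ‖bet M D x y‖ ≤ (‖M.R‖ * ‖D‖) * (‖x‖ * ‖y‖) := by
  unfold bet
  have h1 := norm_dualL M (rk b x (b 0)) (D (rk b (b 0) y))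
  have h2 := D.le_opNorm (rk b (b 0) y)
  have h3 := norm_rk (b := b) x (b 0)
  have h4 := norm_rk (b := b) (b 0) y
  rw [b.orthonormal.1 0, mul_one] at h3
  rw [b.orthonormal.1 0, one_mul] at h4
  calc _ ≤ ‖M.R‖ * ‖rk b x (b 0)‖ * ‖D (rk b (b 0) y)‖ := h1
    _ ≤ ‖M.R‖ * ‖x‖ * (‖D‖ * ‖y‖) := by
        refine mul_le_mul (by gcongr) (h2.trans (by gcongr)) (norm_nonneg _) (by positivity)
    _ = _ := by ring

lemma hasSum_bet {κ : Type*} (v : HilbertBasis κ ℂ H) (x y : H) :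
    HasSum (fun k => ⟪y, v k⟫_ℂ • bet M D x (v k)) (bet M D x y) := by
  have h1 := (v.hasSum_repr y).map (rkHom b (b 0)) (rkHom_continuous (b 0))
  have h2 := h1.mapL D
  have hc : Continuous fun φ : X →L[ℂ] ℂ => M.dualL (rk b x (b 0)) φ := by
    unfold Bimodule.dualL
    exact (ContinuousLinearMap.compL ℂ X X ℂ).flip (M.R (rk b x (b 0))) |>.continuous
  have h3 := h2.map (⟨⟨fun φ => M.dualL (rk b x (b 0)) φ, by simp [Bimodule.dualL]⟩,
    fun φ ψ => dualL_add' M _ φ ψ⟩ : (X →L[ℂ] ℂ) →+ (X →L[ℂ] ℂ)) hc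
  have h4 : HasSum (fun k => bet M D x (v.repr y k • v k)) (bet M D x y) := h3
  simpa only [bet_smul_right, v.repr_apply_apply, inner_conj_symm] using h4

/-- the projective norm bound -/
lemma norm_sum_bet_le {α : Type*} (s : Finset α) (x y : α → H) :
    ‖∑ i ∈ s, bet M D (x i) (y i)‖ ≤ (‖M.R‖ * ‖D‖) * ‖∑ i ∈ s, rk b (x i) (y i)‖ := by
  classical
  set c := ∑ i ∈ s, rk b (x i) (y i) with hc
  obtain ⟨κ, v, hv⟩ := exists_svd c
  have hcv : ∀ k, c.op (v k) = ∑ i ∈ s, ⟪y i, v k⟫_ℂ • x i := by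
    intro k
    have h1 : c.op = ∑ i ∈ s, (rk b (x i) (y i)).op := by
      rw [hc]
      exact map_sum (SchattenAlg.opHom (b := b) (p := 1)) _ s
    rw [h1, sum_apply]
    exact Finset.sum_congr rfl fun i _ => rk_op _ _ _
  have h1 : HasSum (fun k => bet M D (c.op (v k)) (v k)) (∑ i ∈ s, bet M D (x i) (y i)) := by
    have h2 := hasSum_sum (s := s) fun i _ => hasSum_bet M D v (x i) (y i)
    have h3 : (fun k => bet M D (c.op (v k)) (v k)) =
        fun k => ∑ i ∈ s, ⟪y i, v k⟫_ℂ • bet M D (x i) (v k) := by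
      funext k
      rw [hcv, bet_sum_left]
      exact Finset.sum_congr rfl fun i _ => bet_smul_left M D _ _ _
    rw [h3]
    exact h2
  rw [← h1.tsum_eq]
  refine tsum_of_norm_bounded (hv.mul_left (‖M.R‖ * ‖D‖)) fun k => ?_
  refine (norm_bet M D _ _).trans ?_
  rw [v.orthonormal.1 k, mul_one]

end Der

/-! the approximate identity -/

/-- the projection onto the span of `b 0, …, b (n-1)` -/
noncomputable def EE (b : HilbertBasis ℕ ℂ H) (n : ℕ) : SchattenAlg b 1 :=
  ∑ j ∈ Finset.range n, rk b (b j) (b j)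

lemma EE_op (n : ℕ) (z : H) : (EE b n).op z = ∑ j ∈ Finset.range n, ⟪b j, z⟫_ℂ • b j := by
  unfold EE
  have h1 : (∑ j ∈ Finset.range n, rk b (b j) (b j)).op =
      ∑ j ∈ Finset.range n, (rk b (b j) (b j)).op :=
    map_sum (SchattenAlg.opHom (b := b) (p := 1)) _ _
  rw [h1, sum_apply]
  exact Finset.sum_congr rfl fun i _ => rk_op _ _ _

lemma EE_tendsto (z : H) : Tendsto (fun n => (EE b n).op z) atTop (𝓝 z) := by
  have h1 := (b.hasSum_repr z).tendsto_sum_nat
  refine h1.congr fun n => ?_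
  rw [EE_op]
  exact Finset.sum_congr rfl fun i _ => by rw [b.repr_apply_apply]

lemma norm_EE_le (n : ℕ) (z : H) : ‖(EE b n).op z‖ ≤ ‖z‖ := by
  have h1 := hasSum_sq b ((EE b n).op z)
  have h2 := hasSum_sq b z
  have h3 : ∀ k, ‖⟪b k, (EE b n).op z⟫_ℂ‖ ^ 2 ≤ ‖⟪b k, z⟫_ℂ‖ ^ 2 := by
    intro k
    have : ⟪b k, (EE b n).op z⟫_ℂ = if k ∈ Finset.range n then ⟪b k, z⟫_ℂ else 0 := by
      rw [EE_op, inner_sum]
      have : ∀ j ∈ Finset.range n, ⟪b k, ⟪b j, z⟫_ℂ • b j⟫_ℂ = if k = j then ⟪b k, z⟫_ℂ else 0 := by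
        intro j _
        rw [inner_smul_right, inner_basis b]
        by_cases h : k = j
        · subst h; simp
        · simp [h]
      rw [Finset.sum_congr rfl this, Finset.sum_ite_eq]
    rw [this]
    by_cases h : k ∈ Finset.range n
    · rw [if_pos h]
    · rw [if_neg h, norm_zero, zero_pow two_ne_zero]
      positivity
  have h4 := hasSum_le h3 h1 h2
  exact (pow_le_pow_iff_left₀ (norm_nonneg _) (norm_nonneg _) two_ne_zero).1 h4

lemma EE_mul_tendsto (a : SchattenAlg b 1) : Tendsto (fun n => EE b n * a) atTop (𝓝 a) := by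
  obtain ⟨κ, v, hv⟩ := exists_svd a
  rw [tendsto_iff_norm_sub_tendsto_zero]
  have hbd : ∀ n, ‖EE b n * a - a‖ ≤ ∑' k, ‖(EE b n).op (a.op (v k)) - a.op (v k)‖ := by
    intro n
    set Y := EE b n * a - a with hY
    have hYv : ∀ k, Y.op (v k) = (EE b n).op (a.op (v k)) - a.op (v k) := fun k => rfl
    have hs : Summable fun k => ‖Y.op (v k)‖ := by
      refine Summable.of_nonneg_of_le (fun k => norm_nonneg _) (fun k => ?_)
        (hv.summable.mul_left 2)
      rw [hYv]
      have := norm_EE_le (b := b) n (a.op (v k))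
      calc _ ≤ ‖(EE b n).op (a.op (v k))‖ + ‖a.op (v k)‖ := norm_sub_le _ _
        _ ≤ _ := by linarith
    have h1 := le_sum_norm b v (Cpt.of_compact Y.compact).1 one_pos (by norm_num : (1:ℝ) ≤ 2)
    simp only [Real.rpow_one] at h1
    rw [← ENNReal.ofReal_tsum_of_nonneg (fun k => norm_nonneg _) hs] at h1
    refine sn_le_of b one_pos (tsum_nonneg fun k => norm_nonneg _) ?_
    rw [Real.rpow_one]
    exact h1
  have hlim : Tendsto (fun n => ∑' k, ‖(EE b n).op (a.op (v k)) - a.op (v k)‖) atTop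
      (𝓝 (∑' k : κ, (0 : ℝ))) := by
    refine tendsto_tsum_of_dominated_convergence (bound := fun k => 2 * ‖a.op (v k)‖)
      (hv.summable.mul_left 2) (fun k => ?_) (Eventually.of_forall fun n k => ?_)
    · have := (EE_tendsto (b := b) (a.op (v k))).sub_const (a.op (v k))
      rw [sub_self] at this
      simpa using this.norm
    · rw [norm_norm]
      have := norm_EE_le (b := b) n (a.op (v k))
      calc _ ≤ ‖(EE b n).op (a.op (v k))‖ + ‖a.op (v k)‖ := norm_sub_le _ _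
        _ ≤ _ := by linarith
  rw [tsum_zero] at hlim
  exact squeeze_zero (fun n => norm_nonneg _) hbd hlim

/-- the adjoint in `𝔖_1` -/
noncomputable def adj (a : SchattenAlg b 1) : SchattenAlg b 1 :=
  ⟨star a.op, compact_star a.compact, by
    rw [trAbsPow_star b (Cpt.of_compact a.compact) one_pos]; exact a.fin⟩

lemma norm_adj (a : SchattenAlg b 1) : ‖adj a‖ = ‖a‖ := sn_star b a.compact one_pos

lemma adj_EE (n : ℕ) : star (EE b n).op = (EE b n).op := by
  refine ContinuousLinearMap.ext fun z => ?_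
  refine ext_inner_left ℂ fun w => ?_
  rw [inner_star_right, EE_op, EE_op, sum_inner, inner_sum]
  refine Finset.sum_congr rfl fun j _ => ?_
  rw [inner_smul_left, inner_smul_right, inner_conj_symm]
  ring

lemma mul_EE_tendsto (a : SchattenAlg b 1) : Tendsto (fun n => a * EE b n) atTop (𝓝 a) := by
  rw [tendsto_iff_norm_sub_tendsto_zero]
  have h1 := tendsto_iff_norm_sub_tendsto_zero.1 (EE_mul_tendsto (adj a))
  refine h1.congr fun n => ?_
  rw [← norm_adj (a * EE b n - a)]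
  congr 1
  apply SchattenAlg.op_injective
  change (EE b n).op * star a.op - star a.op = star (a.op * (EE b n).op - a.op)
  rw [star_sub, star_mul, adj_EE]

section Fin

variable {X : Type u} [NormedAddCommGroup X] [NormedSpace ℂ X]
  (M : Bimodule (SchattenAlg b 1) X) (D : SchattenAlg b 1 →L[ℂ] (X →L[ℂ] ℂ))

lemma dualL_sum' (a : SchattenAlg b 1) (s : Finset ℕ) (f : ℕ → (X →L[ℂ] ℂ)) :
    M.dualL a (∑ i ∈ s, f i) = ∑ i ∈ s, M.dualL a (f i) := by
  ext x
  simp [Bimodule.dualL]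

lemma dualR_sum' (a : SchattenAlg b 1) (s : Finset ℕ) (f : ℕ → (X →L[ℂ] ℂ)) :
    M.dualR a (∑ i ∈ s, f i) = ∑ i ∈ s, M.dualR a (f i) := by
  ext x
  simp [Bimodule.dualR]

lemma dualR_sub' (a : SchattenAlg b 1) (φ ψ : X →L[ℂ] ℂ) :
    M.dualR a (φ - ψ) = M.dualR a φ - M.dualR a ψ := by
  ext x
  simp [Bimodule.dualR]

lemma dualL_zero (φ : X →L[ℂ] ℂ) : M.dualL 0 φ = 0 := by
  ext x
  simp [Bimodule.dualL]

lemma dualL_sum (s : Finset ℕ) (f : ℕ → SchattenAlg b 1) (φ : X →L[ℂ] ℂ) :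
    M.dualL (∑ i ∈ s, f i) φ = ∑ i ∈ s, M.dualL (f i) φ := by
  classical
  induction s using Finset.induction_on with
  | empty => simp [dualL_zero]
  | insert a s ha ih => rw [Finset.sum_insert ha, Finset.sum_insert ha, dualL_add, ih]

lemma rk_neg_left (x y : H) : rk b (-x) y = -rk b x y := by
  have := rk_smul_left (b := b) (-1) x y
  rw [neg_one_smul, neg_one_smul] at this
  exact this

lemma bet_neg_left (x y : H) : bet M D (-x) y = -bet M D x y := by
  unfold bet
  rw [rk_neg_left]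
  ext z
  simp [Bimodule.dualL]

lemma rk_mul_rk (j : ℕ) : rk b (b j) (b 0) * rk b (b 0) (b j) = rk b (b j) (b j) := by
  rw [mul_rk, rk_op, inner_basis b, if_pos rfl, one_smul]

lemma dualL_xi (a : SchattenAlg b 1) (n : ℕ) :
    M.dualL a (∑ j ∈ Finset.range n, bet M D (b j) (b j)) =
      ∑ j ∈ Finset.range n, bet M D (a.op (b j)) (b j) := by
  rw [dualL_sum']
  refine Finset.sum_congr rfl fun j _ => ?_
  unfold bet
  rw [← dualL_mul, mul_rk]

lemma dualR_xi (hD : M.IsDerivation D) (a : SchattenAlg b 1) (n : ℕ) :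
    M.dualR a (∑ j ∈ Finset.range n, bet M D (b j) (b j)) =
      ∑ j ∈ Finset.range n, bet M D (b j) ((star a.op) (b j)) - M.dualL (EE b n) (D a) := by
  rw [dualR_sum', EE, dualL_sum, ← Finset.sum_sub_distrib]
  refine Finset.sum_congr rfl fun j _ => ?_
  unfold bet
  rw [dual_comm]
  have h1 : M.dualR a (D (rk b (b 0) (b j))) =
      D (rk b (b 0) (b j) * a) - M.dualL (rk b (b 0) (b j)) (D a) := by
    rw [hD]; abel
  rw [h1, dualL_sub', ← dualL_mul, rk_mul_rk, rk_mul]

lemma sum_rk_left (a : SchattenAlg b 1) (n : ℕ) :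
    ∑ j ∈ Finset.range n, rk b (a.op (b j)) (b j) = a * EE b n := by
  rw [EE, Finset.mul_sum]
  exact Finset.sum_congr rfl fun j _ => (mul_rk _ _ _).symm

lemma sum_rk_right (a : SchattenAlg b 1) (n : ℕ) :
    ∑ j ∈ Finset.range n, rk b (-(b j)) ((star a.op) (b j)) = -(EE b n * a) := by
  rw [EE, Finset.sum_mul, ← Finset.sum_neg_distrib]
  exact Finset.sum_congr rfl fun j _ => by rw [rk_neg_left, rk_mul]

lemma comm_bound (a : SchattenAlg b 1) (n : ℕ) :
    ‖∑ j ∈ Finset.range n, bet M D (a.op (b j)) (b j) +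
        ∑ j ∈ Finset.range n, bet M D (-(b j)) ((star a.op) (b j))‖ ≤
      (‖M.R‖ * ‖D‖) * ‖a * EE b n - EE b n * a‖ := by
  have h := norm_sum_bet_le M D ((Finset.range n).disjSum (Finset.range n))
    (Sum.elim (fun j => a.op (b j)) (fun j => -(b j)))
    (Sum.elim (fun j => b j) (fun j => (star a.op) (b j)))
  rw [Finset.sum_disjSum, Finset.sum_disjSum] at h
  simp only [Sum.elim_inl, Sum.elim_inr] at h
  rw [sum_rk_left, sum_rk_right, ← sub_eq_add_neg] at h
  exact h

end Fin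

/-- **`𝔖_1(H)` is approximately semi-amenable.** -/
theorem semi_one : ApproxSemiAmenable (SchattenAlg b 1) := by
  intro X _ _ _ M D hD
  set ξ : ℕ → (X →L[ℂ] ℂ) := fun n => ∑ j ∈ Finset.range n, bet M D (b j) (b j) with hξ
  set η : ℕ → (X →L[ℂ] ℂ) := fun n => ξ n - D (EE b n) with hη
  have key : ∀ (a : SchattenAlg b 1) (n : ℕ), M.dualL a (ξ n) - M.dualR a (η n) =
      D (EE b n * a) + (∑ j ∈ Finset.range n, bet M D (a.op (b j)) (b j) +
        ∑ j ∈ Finset.range n, bet M D (-(b j)) ((star a.op) (b j))) := by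
    intro a n
    have e1 : M.dualL a (ξ n) = ∑ j ∈ Finset.range n, bet M D (a.op (b j)) (b j) :=
      dualL_xi M D a n
    have e2 : M.dualR a (ξ n) = ∑ j ∈ Finset.range n, bet M D (b j) ((star a.op) (b j)) -
        M.dualL (EE b n) (D a) := dualR_xi M D hD a n
    have e3 : M.dualR a (D (EE b n)) = D (EE b n * a) - M.dualL (EE b n) (D a) := by
      rw [hD]; abel
    have e4 : ∑ j ∈ Finset.range n, bet M D (-(b j)) ((star a.op) (b j)) =
        -∑ j ∈ Finset.range n, bet M D (b j) ((star a.op) (b j)) := by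
      rw [← Finset.sum_neg_distrib]
      exact Finset.sum_congr rfl fun j _ => bet_neg_left M D _ _
    rw [hη]
    simp only
    rw [dualR_sub', e1, e2, e3, e4]
    abel
  have hlim : ∀ a : SchattenAlg b 1,
      Tendsto (fun n => M.dualL a (ξ n) - M.dualR a (η n)) atTop (𝓝 (D a)) := by
    intro a
    simp_rw [key]
    have t1 : Tendsto (fun n => D (EE b n * a)) atTop (𝓝 (D a)) :=
      (D.continuous.tendsto a).comp (EE_mul_tendsto a)
    have t2 : Tendsto (fun n => ∑ j ∈ Finset.range n, bet M D (a.op (b j)) (b j) +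
        ∑ j ∈ Finset.range n, bet M D (-(b j)) ((star a.op) (b j))) atTop (𝓝 0) := by
      rw [tendsto_zero_iff_norm_tendsto_zero]
      have t3 : Tendsto (fun n => (‖M.R‖ * ‖D‖) * ‖a * EE b n - EE b n * a‖) atTop (𝓝 0) := by
        have t4 := ((mul_EE_tendsto a).sub (EE_mul_tendsto a)).norm.const_mul (‖M.R‖ * ‖D‖)
        rw [sub_self, norm_zero, mul_zero] at t4
        exact t4
      exact squeeze_zero (fun n => norm_nonneg _) (fun n => comm_bound M D a n) t3
    have := t1.add t2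
    rwa [add_zero] at this
  refine ⟨ULift ℕ, map ULift.up atTop, inferInstance, fun i => ξ i.down, fun i => η i.down,
    fun a => ?_⟩
  rw [tendsto_map'_iff]
  exact hlim a

end Pool.Agent.Q193.SA
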